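import Pool.Agent.H77.AF.Mult
import Pool.Agent.H25.DP.Push

/-! # PB.Mcon : replacing the factors of a product by equivalent cycles; the homomorphism `phi` on products (about 120 lines)

`mul_con`: for `J : Finset (Fin m)` let `x_J = J.piecewise u w`; by induction on `J` `mul x_J - mul w ∈ tor` : `x_{insert i J} = update x_J i (u i)`, `mul x_{insert i J} - mul x_J = - mul (update x_J i (w i - u i))` (`MultilinearMap.map_update_sub`), which is in `tor (RatEq D m)` by `kill1` (`H77/AF/Ins.lean`, see how
`fib_push` in `Pool/Agent/H25/DP/Push.lean` uses it).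
`phi_prod`: both sides are multilinear in `z`: `prodM z = mulD z` for the multilinear map `mulD` of `exists_mul D m`; write `z i` as the sum of `z i P • single P 1`; or expand `prodM z = ∑ f ∈ piFinset, single f (∏ z i (f i))` (definition), `phi_single`, `pr2_eq`, and `MultilinearMap.map_sum_finset`,
`MultilinearMap.map_smul_univ` for the right side. -/

namespace H77.PB

open H68.BB H77.AF H25.DP

variable {K : Type} [Field K] {D D' : PD K}

theorem mul_con {m : ℕ} {mul : MultilinearMap ℤ (fun _ : Fin m => Cyc1 D) (Cyc D m)} (hm : IsPr mul)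
    (w u : Fin m → Cyc1 D) (h : ∀ i, up (w i - u i) ∈ tor (RatEq D 1)) : mul w - mul u ∈ tor (RatEq D m) := by
  classical
  have key : ∀ J : Finset (Fin m), mul w - mul (J.piecewise u w) ∈ tor (RatEq D m) := by
    intro J
    induction J using Finset.induction_on with
    | empty =>
      rw [Finset.piecewise_empty, sub_self]
      exact AddSubgroup.zero_mem _
    | insert i J hi ih =>
      have h1 : (insert i J).piecewise u w = Function.update (J.piecewise u w) i (u i) :=
        Finset.piecewise_insert J u w i
      have h2 : mul (J.piecewise u w) = mul (Function.update (J.piecewise u w) i (w i)) := by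
        congr 1
        have h3 : w i = J.piecewise u w i := (Finset.piecewise_eq_of_notMem J u w hi).symm
        rw [h3, Function.update_eq_self]
      have h4 : mul (Function.update (J.piecewise u w) i (w i - u i)) ∈ tor (RatEq D m) := by
        refine kill1 hm (i := i) _ ?_
        rw [Function.update_self]
        exact h i
      rw [MultilinearMap.map_update_sub, ← h2, ← h1] at h4
      have h5 := AddSubgroup.add_mem _ ih h4
      rwa [sub_add_sub_cancel] at h5
  have h6 := key Finset.univ
  rwa [Finset.piecewise_univ] at h6

private noncomputable def mc_F (gp gm : D.X → D'.X) : Cyc1 D →+ Cyc1 D' :=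
  Finsupp.liftAddHom fun P => zmultiplesHom _ (Finsupp.single (gp P) 1 - Finsupp.single (gm P) 1 : Cyc1 D')

private theorem mc_F_apply (gp gm : D.X → D'.X) (z : Cyc1 D) :
    mc_F gp gm z = z.sum fun P n => n • (Finsupp.single (gp P) 1 - Finsupp.single (gm P) 1 : Cyc1 D') := by
  unfold mc_F
  rw [Finsupp.liftAddHom_apply]
  rfl

theorem phi_prod {mul : ∀ k : ℕ, MultilinearMap ℤ (fun _ : Fin k => Cyc1 D') (Cyc D' k)} (hm : ∀ k, IsPr (mul k))
    (gp gm : D.X → D'.X) {m : ℕ} (z : Fin m → Cyc1 D) :
    phi D gp gm m (prodM z) = mul m (fun i => (z i).sum fun P n =>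
      n • (Finsupp.single (gp P) 1 - Finsupp.single (gm P) 1)) := by
  obtain ⟨mulD, hD1, hD2⟩ := exists_mul D m
  have hext : (phi D gp gm m).toIntLinearMap.compMultilinearMap mulD =
      (mul m).compLinearMap (fun _ => (mc_F gp gm).toIntLinearMap) := by
    refine Module.Basis.ext_multilinear (fun _ => Finsupp.basisSingleOne) ?_
    intro v
    rw [LinearMap.compMultilinearMap_apply, MultilinearMap.compLinearMap_apply]
    have h1 : mulD (fun i => Finsupp.basisSingleOne (R := ℤ) (v i)) = Finsupp.single v 1 := by
      have h2 : (fun i => (Finsupp.basisSingleOne (R := ℤ) (v i) : Cyc1 D)) = fun i => Finsupp.single (v i) 1 := by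
        funext i
        rw [Finsupp.coe_basisSingleOne]
      rw [h2]
      exact hD2 v
    rw [h1]
    have h3 : (phi D gp gm m).toIntLinearMap (Finsupp.single v 1) = pr2 gp gm v := by
      rw [AddMonoidHom.coe_toIntLinearMap, phi_single, one_smul]
    rw [h3, pr2_eq hm]
    congr 1
    funext i
    rw [Finsupp.coe_basisSingleOne, AddMonoidHom.coe_toIntLinearMap, mc_F_apply,
      Finsupp.sum_single_index (by rw [zero_smul]), one_smul]
  have h4 := congrArg (fun M => M z) hext
  simp only [LinearMap.compMultilinearMap_apply, MultilinearMap.compLinearMap_apply,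
    AddMonoidHom.coe_toIntLinearMap, hD1, mc_F_apply] at h4
  exact h4

end H77.PB
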