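import Pool.Agent.H77.PB.LiftI

/-! # PB.Ext : extension of a point to the root of a function which does not vanish at it (about 120 lines, given `lift_int`)

`S` = the subalgebra of `Q` generated by `R` and `D⁻¹` (or `Localization.Away D`): `p` extends to `S → K` because `p D ≠ 0` (`IsLocalization.Away.lift`; with `Localization.Away D` one has `Localization.Away D → Q` injective because `R → Q` is injective and `R` is a domain: `IsLocalization.map`/`IsLocalization.lift_injective_iff`).
`E' = integralClosure S Q`, `lift_int` gives `h : E' → K`.  `δ`, `δ⁻¹ ∈ E'`: roots of `X ^ m - D` and `X ^ m - D⁻¹`.  `E` = the subalgebra over `K0` with the carrier of `E'` (`Subalgebra.restrictScalars K0`, or define `E = Algebra.adjoin K0 (Set.range (algebraMap R Q) ∪ {δ, δ⁻¹})` with the inclusion to `E'`).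
`g` is `K0`-linear because `K0 → R → S`, and `h` extends `p`. -/

namespace H77.PB

theorem ext_hom {K0 R Q K : Type} [Field K0] [CommRing R] [IsDomain R] [Algebra K0 R] [Field Q] [Algebra K0 Q] [Algebra R Q]
    [IsScalarTower K0 R Q] (hinj : Function.Injective (algebraMap R Q)) [Field K] [IsAlgClosed K] [Algebra K0 K]
    (p : R →ₐ[K0] K) {D : R} (hD : p D ≠ 0) {δ : Q} {m : ℕ} (hm : 0 < m) (hδ : δ ^ m = algebraMap R Q D) :
    ∃ (E : Subalgebra K0 Q) (g : E →ₐ[K0] K) (hR : ∀ r, algebraMap R Q r ∈ E), δ ∈ E ∧ δ⁻¹ ∈ E ∧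
      ∀ r, g ⟨algebraMap R Q r, hR r⟩ = p r := by
  have hD0 : D ≠ 0 := fun h => hD (by rw [h, map_zero])
  have hDQ : algebraMap R Q D ≠ 0 := fun h => hD0 (hinj (by rw [h, map_zero]))
  have hle : Submonoid.powers D ≤ nonZeroDivisors R := powers_le_nonZeroDivisors_of_noZeroDivisors hD0
  let S := Localization.Away D
  have hinjS : Function.Injective (algebraMap R S) := IsLocalization.injective S hle
  let j : S →+* Q := IsLocalization.Away.lift D (g := algebraMap R Q) (IsUnit.mk0 _ hDQ)
  have hj : ∀ r, j (algebraMap R S r) = algebraMap R Q r := fun r => IsLocalization.Away.lift_eq D _ r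
  have hjinj : Function.Injective j := by
    have h1 : Function.Injective (IsLocalization.lift (M := Submonoid.powers D) (S := S) (g := algebraMap R Q)
        (fun y => by
          obtain ⟨n, hn⟩ := y.2
          rw [← hn, map_pow]
          exact (IsUnit.mk0 _ hDQ).pow n)) := by
      rw [IsLocalization.lift_injective_iff]
      intro x y
      exact ⟨fun h => by rw [hinjS h], fun h => by rw [hinj h]⟩
    intro x y hxy
    apply h1
    obtain ⟨a, s, rfl⟩ := IsLocalization.exists_mk'_eq (Submonoid.powers D) x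
    obtain ⟨b, t, rfl⟩ := IsLocalization.exists_mk'_eq (Submonoid.powers D) y
    exact hxy
  let g0 : S →+* K := IsLocalization.Away.lift D (g := (p : R →+* K)) (IsUnit.mk0 _ hD)
  have hg0 : ∀ r, g0 (algebraMap R S r) = p r := fun r => IsLocalization.Away.lift_eq D _ r
  let : Algebra S Q := j.toAlgebra
  have hSQ : ∀ x, algebraMap S Q x = j x := fun _ => rfl
  let E' : Subalgebra S Q := integralClosure S Q
  have hE'inj : Function.Injective (algebraMap S E') := by
    intro x y hxy
    apply hjinj
    exact congrArg (fun z : E' => (z : Q)) hxy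
  obtain ⟨h, hh⟩ := lift_int (S := S) (E := E') hE'inj g0
  have hRE : ∀ r, algebraMap R Q r ∈ E' := by
    intro r
    rw [← hj r]
    exact E'.algebraMap_mem (algebraMap R S r)
  have hKE : ∀ c : K0, algebraMap K0 Q c ∈ E' := by
    intro c
    rw [IsScalarTower.algebraMap_apply K0 R Q]
    exact hRE _
  have hhR : ∀ r, h ⟨algebraMap R Q r, hRE r⟩ = p r := by
    intro r
    have h1 : (⟨algebraMap R Q r, hRE r⟩ : E') = algebraMap S E' (algebraMap R S r) := Subtype.ext (hj r).symm
    rw [h1, ← hg0 r]
    exact congrArg (fun φ : S →+* K => φ (algebraMap R S r)) hh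
  let E : Subalgebra K0 Q :=
    { carrier := {x | x ∈ E'}
      mul_mem' := fun ha hb => E'.mul_mem ha hb
      add_mem' := fun ha hb => E'.add_mem ha hb
      algebraMap_mem' := hKE }
  let g : E →ₐ[K0] K :=
    { toFun := fun x => h ⟨x.1, x.2⟩
      map_one' := h.map_one
      map_mul' := fun x y => h.map_mul ⟨x.1, x.2⟩ ⟨y.1, y.2⟩
      map_zero' := h.map_zero
      map_add' := fun x y => h.map_add ⟨x.1, x.2⟩ ⟨y.1, y.2⟩
      commutes' := fun c => by
        have h1 : h ⟨algebraMap K0 Q c, hKE c⟩ = p (algebraMap K0 R c) := by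
          rw [← hhR (algebraMap K0 R c)]
          congr 1
          exact Subtype.ext (IsScalarTower.algebraMap_apply K0 R Q c)
        have h2 : p (algebraMap K0 R c) = algebraMap K0 K c := p.commutes c
        exact h1.trans h2 }
  have hδE : δ ∈ E' := by
    change IsIntegral S δ
    refine IsIntegral.of_pow hm ?_
    rw [hδ, ← hj D]
    exact isIntegral_algebraMap
  have hδ0 : δ ≠ 0 := by
    intro h0
    apply hDQ
    rw [← hδ, h0, zero_pow hm.ne']
  have hδE' : δ⁻¹ ∈ E' := by
    change IsIntegral S δ⁻¹
    refine IsIntegral.of_pow hm ?_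
    have hu : IsUnit (algebraMap R S D) := IsLocalization.Away.algebraMap_isUnit D
    obtain ⟨u, hu'⟩ := hu
    have h3 : j (↑u⁻¹ : S) = (δ⁻¹) ^ m := by
      have h4 : j (↑u⁻¹ : S) * j (u : S) = 1 := by
        rw [← map_mul, Units.inv_mul, map_one]
      rw [hu', hj D, ← hδ] at h4
      rw [inv_pow]
      exact eq_inv_of_mul_eq_one_left h4
    rw [← h3]
    exact isIntegral_algebraMap
  exact ⟨E, g, hRE, hδE, hδE', hhR⟩

end H77.PB
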