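import Pool.Agent.H77.PB.Trd
import Pool.Agent.H77.PB.Ext
import Pool.Agent.H25.DP.NN

/-! # PB.Cur : the affine curve `b^2 - a^3 = 1` over the base (about 200 lines, given `trd`, `ext_hom`, `H25.DP.nn`)

`R = BR W` is a domain (`hC.prime`), `Q = AlgebraicClosure (FractionRing R)`, `D = mk (b^2 - a^3) ≠ 0`, `δ ∈ Q` with `δ ^ (12 n) = D` (`IsAlgClosed.exists_pow_nat_eq`), `δ ≠ 0`, `β i = x_i / δ ^ (v i) ∈ Q`, `A = Algebra.adjoin K0 (Set.range β)`, a subalgebra of `Q`, a domain.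
`Cov`: `gen`: `Algebra.adjoin_adjoin_coe_preimage`-type lemma (or induction); `eqs`: `f ∈ W.I` is homogeneous of degree `m` and `aeval β f = δ^{-m} aeval x f = 0` in `Q` (`ES.ev_scale` with `c = δ⁻¹`); `disc`: `ES.ev_scale` for `a`, `b`: `dd β = δ^{-12 n} D = 1`.
Finite type: `Algebra.FiniteType` of `adjoin` of a finite set (`Subalgebra.fg_adjoin_finset`..).
`T`: `H25.DP.nn` with `F = Q`, `u = u j = (β j) ^ (12 n)` of `trd` (`(x_i / δ^(v i)) ^ (12 n) = x_i^(12 n) / D^(v i)`): every `β i` is algebraic over `K0(u)` since its power `u i` is, hence every element of `A` (`Algebra.adjoin` is contained in the algebraic elements: `IntermediateField`/`algebraicClosure`, `IsAlgebraic.add, mul`..);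
`A` is not a field: it would be a finitely generated `K0`-algebra which is a field, so algebraic over `K0` (Zariski's lemma, `finite_of_finite_type_of_isJacobsonRing`), but `u j ∈ A` is transcendental.
Points: given `p : Fin s → K` with the equations, the homomorphism `R →ₐ[K0] K`, `x_i ↦ p i` (`Ideal.Quotient.liftₐ`), has the value `dd W p ≠ 0` at `D`; `ext_hom`: `g : E → K`; `φ` = the restriction of `g` to `A ≤ E` (`Algebra.adjoin_le`: `β i = x_i * (δ⁻¹) ^ (v i) ∈ E`), `c = g δ⁻¹ ≠ 0` (`g δ * g δ⁻¹ = 1`). -/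

namespace H77.PB

open Polynomial

variable {K0 : Type} [Field K0] [IsAlgClosed K0] {s : ℕ} {W : ES.Wm K0 s}

omit [IsAlgClosed K0] in
private theorem cur_coe {Q : Type} [Field Q] [Algebra K0 Q] {β : Fin s → Q}
    (β' : Fin s → Algebra.adjoin K0 (Set.range β)) (hβ' : ∀ i, (β' i : Q) = β i)
    (f : MvPolynomial (Fin s) K0) :
    ((MvPolynomial.aeval β' f : Algebra.adjoin K0 (Set.range β)) : Q) = ES.ev f β := by
  have h := MvPolynomial.comp_aeval_apply (f := β') (Algebra.adjoin K0 (Set.range β)).val f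
  refine h.trans ?_
  unfold ES.ev
  congr 2
  exact funext hβ'

omit [IsAlgClosed K0] in
private theorem cur_alg {Q : Type} [Field Q] [Algebra K0 Q] {β : Fin s → Q} {u : Q} {m : ℕ}
    (hm : 0 < m)
    (h : ∀ i, IsAlgebraic (IntermediateField.adjoin K0 ({u} : Set Q)) (β i ^ m)) {x : Q}
    (hx : x ∈ Algebra.adjoin K0 (Set.range β)) :
    IsAlgebraic (IntermediateField.adjoin K0 ({u} : Set Q)) x := by
  induction hx using Algebra.adjoin_induction with
  | mem x hx =>
    obtain ⟨i, rfl⟩ := hx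
    exact (h i).of_pow hm
  | algebraMap r =>
    rw [IsScalarTower.algebraMap_apply K0 (IntermediateField.adjoin K0 ({u} : Set Q)) Q]
    exact isAlgebraic_algebraMap _
  | add x y _ _ hx hy => exact hx.add hy
  | mul x y _ _ hx hy => exact hx.mul hy

omit [IsAlgClosed K0] in
private theorem cur_main (hW : W.Ok) (hC : Curve W) (hD : W.b ^ 2 - W.a ^ 3 ∉ Ideal.span W.I)
    [IsDomain (BR W)] {Q : Type} [Field Q] [IsAlgClosed Q] [Algebra K0 Q] [Algebra (BR W) Q]
    [IsScalarTower K0 (BR W) Q] (hinj : Function.Injective (algebraMap (BR W) Q)) :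
    ∃ (A : Type) (_ : CommRing A) (_ : IsDomain A) (_ : Algebra K0 A) (β : Fin s → A), Cov W A β ∧
      Algebra.FiniteType K0 A ∧
      (∃ T : A, Transcendental K0 T ∧ ∀ x : A, IsIntegral (Algebra.adjoin K0 ({T} : Set A)) x) ∧
      ∀ (K : Type) [Field K] [IsAlgClosed K] [Algebra K0 K] (p : Fin s → K),
        (∀ f ∈ W.I, ES.ev f p = 0) →
        ES.dd W p ≠ 0 → ∃ (φ : A →ₐ[K0] K) (c : K), c ≠ 0 ∧ ∀ i, φ (β i) = c ^ W.v i * p i := by
  have hm : 0 < 12 * W.n := Nat.mul_pos (by norm_num) hW.n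
  set D : BR W := Ideal.Quotient.mk (Ideal.span W.I) (W.b ^ 2 - W.a ^ 3) with hDdef
  have hD0 : D ≠ 0 := fun h => hD (Ideal.Quotient.eq_zero_iff_mem.1 h)
  have hDQ : algebraMap (BR W) Q D ≠ 0 := (map_ne_zero_iff _ hinj).2 hD0
  obtain ⟨δ, hδ⟩ := IsAlgClosed.exists_pow_nat_eq (algebraMap (BR W) Q D) hm
  have hδ0 : δ ≠ 0 := by
    rintro rfl
    rw [zero_pow hm.ne'] at hδ
    exact hDQ hδ.symm
  let ξ : Fin s → Q := fun i =>
    algebraMap (BR W) Q (Ideal.Quotient.mk (Ideal.span W.I) (MvPolynomial.X i))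
  have hξ : ∀ f : MvPolynomial (Fin s) K0,
      ES.ev f ξ = algebraMap (BR W) Q (Ideal.Quotient.mk (Ideal.span W.I) f) := by
    intro f
    have h := MvPolynomial.comp_aeval_apply (f := MvPolynomial.X)
      ((IsScalarTower.toAlgHom K0 (BR W) Q).comp (Ideal.Quotient.mkₐ K0 (Ideal.span W.I))) f
    rw [MvPolynomial.aeval_X_left_apply] at h
    exact h.symm
  let β : Fin s → Q := fun i => δ⁻¹ ^ W.v i * ξ i
  let β' : Fin s → Algebra.adjoin K0 (Set.range β) := fun i =>
    ⟨β i, Algebra.subset_adjoin (Set.mem_range_self i)⟩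
  have hco := cur_coe β' fun i => rfl
  have hgen : Algebra.adjoin K0 (Set.range β') = ⊤ := by
    have h := Algebra.adjoin_adjoin_coe_preimage (R := K0) (s := Set.range β)
    rw [← h]
    congr 1
    ext x
    constructor
    · rintro ⟨i, rfl⟩
      exact ⟨i, rfl⟩
    · rintro ⟨i, hi⟩
      exact ⟨i, Subtype.ext hi⟩
  have heqs : ∀ f ∈ W.I, MvPolynomial.aeval β' f = 0 := by
    intro f hf
    obtain ⟨m, -, hfm⟩ := hW.I f hf
    apply Subtype.ext
    rw [hco, ES.ev_scale hfm, hξ, Ideal.Quotient.eq_zero_iff_mem.2 (Ideal.subset_span hf), map_zero,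
      mul_zero]
    rfl
  have hdisc : (MvPolynomial.aeval β' W.b) ^ 2 - (MvPolynomial.aeval β' W.a) ^ 3 = 1 := by
    apply Subtype.ext
    have h1 : (((MvPolynomial.aeval β' W.b) ^ 2 - (MvPolynomial.aeval β' W.a) ^ 3 :
        Algebra.adjoin K0 (Set.range β)) : Q) = ES.ev W.b β ^ 2 - ES.ev W.a β ^ 3 := by
      rw [← hco, ← hco]
      rfl
    rw [h1, ES.ev_scale hW.b, ES.ev_scale hW.a]
    have h2 : (δ⁻¹ ^ (6 * W.n) * ES.ev W.b ξ) ^ 2 - (δ⁻¹ ^ (4 * W.n) * ES.ev W.a ξ) ^ 3 =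
        (δ ^ (12 * W.n))⁻¹ * (ES.ev W.b ξ ^ 2 - ES.ev W.a ξ ^ 3) := by
      rw [← inv_pow]
      ring
    have h3 : ES.ev W.b ξ ^ 2 - ES.ev W.a ξ ^ 3 = algebraMap (BR W) Q D := by
      rw [hξ, hξ, hDdef, map_sub, map_pow, map_pow, map_sub, map_pow, map_pow]
    rw [h2, hδ, h3]
    exact inv_mul_cancel₀ hDQ
  haveI hft : Algebra.FiniteType K0 (Algebra.adjoin K0 (Set.range β)) :=
    ⟨Subalgebra.fg_def.2 ⟨Set.range β', Set.finite_range _, hgen⟩⟩
  refine ⟨Algebra.adjoin K0 (Set.range β), inferInstance, inferInstance, inferInstance, β',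
    ⟨hgen, heqs, hdisc⟩, hft, ?_, ?_⟩
  · have hu : ∀ i, β i ^ (12 * W.n) =
        algebraMap (BR W) Q (Ideal.Quotient.mk (Ideal.span W.I) (MvPolynomial.X i)) ^ (12 * W.n) /
          algebraMap (BR W) Q (Ideal.Quotient.mk (Ideal.span W.I) (W.b ^ 2 - W.a ^ 3)) ^ W.v i := by
      intro i
      change (δ⁻¹ ^ W.v i * ξ i) ^ (12 * W.n) = ξ i ^ (12 * W.n) / algebraMap (BR W) Q D ^ W.v i
      rw [mul_pow, ← pow_mul, mul_comm (W.v i), pow_mul, inv_pow, hδ, inv_pow, div_eq_mul_inv,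
        mul_comm]
    obtain ⟨j, hj, halg⟩ := trd hW hC hD hinj (fun i => β i ^ (12 * W.n)) hu
    refine H25.DP.nn (F := Q) ?_ Subtype.val_injective (u := β j ^ (12 * W.n)) fun x =>
      cur_alg hm halg x.2
    intro hF
    letI := hF.toField
    haveI hfin : Module.Finite K0 (Algebra.adjoin K0 (Set.range β)) :=
      finite_of_finite_type_of_isJacobsonRing K0 (Algebra.adjoin K0 (Set.range β))
    apply hj
    have h1 : IsAlgebraic K0 (β' j ^ (12 * W.n)) :=
      (IsIntegral.of_finite K0 (β' j ^ (12 * W.n))).isAlgebraic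
    exact h1.algHom (Algebra.adjoin K0 (Set.range β)).val
  · intro K _ _ _ p hp hdd
    let p' : BR W →ₐ[K0] K := Ideal.Quotient.liftₐ (Ideal.span W.I) (MvPolynomial.aeval p) (by
      intro a ha
      have h1 : Ideal.span W.I ≤ RingHom.ker (MvPolynomial.aeval (R := K0) p) := by
        rw [Ideal.span_le]
        intro f hf
        exact hp f hf
      exact h1 ha)
    have hp' : ∀ f, p' (Ideal.Quotient.mk (Ideal.span W.I) f) = MvPolynomial.aeval p f := fun f => rfl
    have hpD : p' D ≠ 0 := by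
      rw [hDdef, hp', map_sub, map_pow, map_pow]
      exact hdd
    obtain ⟨E, g, hR, h1, h2, hg⟩ := ext_hom hinj p' hpD hm hδ
    have hle : Algebra.adjoin K0 (Set.range β) ≤ E := by
      apply Algebra.adjoin_le
      rintro _ ⟨i, rfl⟩
      exact E.mul_mem (E.pow_mem h2 _) (hR _)
    refine ⟨g.comp (Subalgebra.inclusion hle), g ⟨δ⁻¹, h2⟩, ?_, ?_⟩
    · have h3 : g ⟨δ, h1⟩ * g ⟨δ⁻¹, h2⟩ = 1 := by
        rw [← map_mul, ← map_one g]
        congr 1
        exact Subtype.ext (mul_inv_cancel₀ hδ0)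
      exact right_ne_zero_of_mul_eq_one h3
    · intro i
      have h3 : Subalgebra.inclusion hle (β' i) = (⟨δ⁻¹, h2⟩ : E) ^ W.v i * ⟨ξ i, hR _⟩ :=
        Subtype.ext rfl
      change g (Subalgebra.inclusion hle (β' i)) = _
      rw [h3, map_mul, map_pow]
      congr 1
      refine (hg _).trans ?_
      rw [hp', MvPolynomial.aeval_X]

theorem exists_cov (hW : W.Ok) (hC : Curve W) (hD : W.b ^ 2 - W.a ^ 3 ∉ Ideal.span W.I) :
    ∃ (A : Type) (_ : CommRing A) (_ : IsDomain A) (_ : Algebra K0 A) (β : Fin s → A), Cov W A β ∧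
      Algebra.FiniteType K0 A ∧
      (∃ T : A, Transcendental K0 T ∧ ∀ x : A, IsIntegral (Algebra.adjoin K0 ({T} : Set A)) x) ∧
      ∀ (K : Type) [Field K] [IsAlgClosed K] [Algebra K0 K] (p : Fin s → K), (∀ f ∈ W.I, ES.ev f p = 0) →
        ES.dd W p ≠ 0 → ∃ (φ : A →ₐ[K0] K) (c : K), c ≠ 0 ∧ ∀ i, φ (β i) = c ^ W.v i * p i := by
  have := hC.prime
  have : IsDomain (BR W) := Ideal.Quotient.isDomain _
  have : IsScalarTower K0 (BR W) (AlgebraicClosure (FractionRing (BR W))) :=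
    IsScalarTower.of_algebraMap_eq fun x =>
      (IsScalarTower.algebraMap_apply K0 (FractionRing (BR W))
          (AlgebraicClosure (FractionRing (BR W))) x).trans (by
        rw [IsScalarTower.algebraMap_apply (BR W) (FractionRing (BR W))
            (AlgebraicClosure (FractionRing (BR W))) (algebraMap K0 (BR W) x),
          ← IsScalarTower.algebraMap_apply K0 (BR W) (FractionRing (BR W))])
  exact cur_main hW hC hD (Q := AlgebraicClosure (FractionRing (BR W)))
    ((algebraMap (FractionRing (BR W)) (AlgebraicClosure (FractionRing (BR W)))).injective.comp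
      (IsFractionRing.injective (BR W) (FractionRing (BR W))))

end H77.PB
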