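import Pool.Agent.H77.UB.Iso

/-! # PB.HaltT : `H77.UB.halt` with a transcendental element -/

namespace H77.PB

open H68.BB Polynomial H77.AF

theorem instT {K0 A : Type} [Field K0] [CommRing A] [Algebra K0 A] [Algebra.FiniteType K0 A] {T : A}
    (hT : Transcendental K0 T) (hint : ∀ x : A, IsIntegral (Algebra.adjoin K0 ({T} : Set A)) x) :
    ∃ (_ : Algebra K0[X] A), IsScalarTower K0 K0[X] A ∧ Module.Finite K0[X] A ∧ FaithfulSMul K0[X] A := by
  have hnt : Nontrivial A := by
    rw [← not_subsingleton_iff_nontrivial]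
    intro h
    exact hT ⟨X, X_ne_zero, Subsingleton.elim _ _⟩
  let alg : Algebra K0[X] A := (aeval T : K0[X] →ₐ[K0] A).toRingHom.toAlgebra
  have hal : ∀ p : K0[X], algebraMap K0[X] A p = aeval T p := fun p => rfl
  have hst : IsScalarTower K0 K0[X] A := by
    apply IsScalarTower.of_algebraMap_eq
    intro c
    rw [hal]
    have h1 : algebraMap K0 K0[X] c = C c := rfl
    rw [h1, aeval_C]
  have hinj : Function.Injective (algebraMap K0[X] A) := transcendental_iff_injective.1 hT
  have hint' : Algebra.IsIntegral K0[X] A := by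
    refine ⟨fun x => ?_⟩
    obtain ⟨p, hp, hp0⟩ := hint x
    have hs : Function.Surjective ((aeval (R := K0) (⟨T, Algebra.self_mem_adjoin_singleton K0 T⟩ :
        Algebra.adjoin K0 ({T} : Set A)))) := by
      rintro ⟨y, hy⟩
      have h2 : y ∈ (aeval (R := K0) T).range := by
        rw [← Algebra.adjoin_singleton_eq_range_aeval]
        exact hy
      obtain ⟨q, hq⟩ := h2
      refine ⟨q, Subtype.ext (Eq.trans ?_ hq)⟩
      change (Subalgebra.val _) (aeval (⟨T, Algebra.self_mem_adjoin_singleton K0 T⟩ : Algebra.adjoin K0 ({T} : Set A)) q) =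
        aeval T q
      rw [← aeval_algHom_apply]
      rfl
    have h3 : p ∈ Polynomial.lifts ((aeval (R := K0) (⟨T, Algebra.self_mem_adjoin_singleton K0 T⟩ :
        Algebra.adjoin K0 ({T} : Set A))) : K0[X] →+* _) := by
      rw [Polynomial.lifts_iff_coeff_lifts]
      intro n
      obtain ⟨q, hq⟩ := hs (p.coeff n)
      exact ⟨q, hq⟩
    obtain ⟨q, hq, -, hqm⟩ := Polynomial.lifts_and_degree_eq_and_monic h3 hp
    refine ⟨q, hqm, ?_⟩
    rw [← hq, eval₂_map] at hp0
    have h4 : (algebraMap (Algebra.adjoin K0 ({T} : Set A)) A).comp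
        ((aeval (R := K0) (⟨T, Algebra.self_mem_adjoin_singleton K0 T⟩ : Algebra.adjoin K0 ({T} : Set A))) : K0[X] →+* _) =
        algebraMap K0[X] A := by
      apply Polynomial.ringHom_ext
      · intro c
        rw [RingHom.comp_apply, RingHom.coe_coe, aeval_C, hal, aeval_C]
        rfl
      · rw [RingHom.comp_apply, RingHom.coe_coe, aeval_X, hal, aeval_X]
        rfl
    rw [h4] at hp0
    exact hp0
  have hft : Algebra.FiniteType K0[X] A := Algebra.FiniteType.of_restrictScalars_finiteType K0 K0[X] A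
  exact ⟨alg, hst, Algebra.IsIntegral.finite, (faithfulSMul_iff_algebraMap_injective K0[X] A).2 hinj⟩

theorem haltT {K0 A : Type} [Field K0] [IsAlgClosed K0] [CharZero K0] [CommRing A] [IsDomain A] [Algebra K0 A]
    [Algebra.FiniteType K0 A] {T : A} (hT : Transcendental K0 T)
    (hint : ∀ x : A, IsIntegral (Algebra.adjoin K0 ({T} : Set A)) x) (a b : A) :
    ∃ k0 : ℕ, ∀ k, k0 ≤ k → ∀ (K : Type) [Field K] [IsAlgClosed K] [Algebra K0 K] (P : Fin k → SP K0 A K a b),
      ∑ σ : Equiv.Perm (Fin k), (Equiv.Perm.sign σ : ℤ) •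
        (Finsupp.single (fun i => P (σ i)) 1 : Cyc (surf K0 K A a b) k) ∈ tor (RatEq (surf K0 K A a b) k) := by
  obtain ⟨alg, hst, hfin, hfs⟩ := instT hT hint
  exact H77.UB.halt a b

end H77.PB
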