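import Pool.Agent.H77.PB.Def
import Pool.Agent.H77.AF.RSd
import Pool.Agent.H77.AF.TD

/-! # PB.NZ : a form which is not zero on `W` is not zero at some point of a smooth fibre (about 120 lines)

`R = BR W` is a domain of finite type over `K0`, `a', b' ∈ R` the classes of `W.a`, `W.b`.  `Z = RS R a' b' = AdjoinRoot (wp a' b')` (`H77/AF/RSd.lean`: `wp a b = X^2 - C (X^3 - C (3 a) X - C (2 b))`, `rs_dom`: `Z` is a domain; `rs_ft`: of finite type over `K0`).
`G_Z = aeval (Sum.elim (fun i => image of x_i) ![image of X, root]) G ∈ Z`, `D_Z` the image of `b'^2 - a'^3 ∈ R`.  The point `P` gives a homomorphism `Z → K0` (`Ideal.Quotient.liftₐ` for `R → K0`, `AdjoinRoot.lift`; `P.y^2 = ..` is the equation) with `G_Z ↦ evG G P ≠ 0`: so `G_Z ≠ 0`.  `D_Z ≠ 0`: `R → Z` is injective (`AdjoinRoot.of`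
of a monic polynomial of degree `2` over `R[X]`: `AdjoinRoot.of.injective_of_degree_ne_zero`-type lemma or `Polynomial.Monic`: if `C (C r) ` is divisible by the monic `wp` of degree 2 then it is zero) and `b'^2 - a'^3 ≠ 0` by `hD`.  `H77.AF.exists_pt`: a homomorphism `ψ : Z →ₐ[K0] K0` with `ψ (G_Z * D_Z) ≠ 0`.
`P' = (ψ x_i, ψ X, ψ root)`.  `OnW`: `NZ`: if `P'.β = 0` then `dd W P'.β = 0` (`ES.ev_zero`), so `P'.β ≠ 0`; the equations: `f ∈ W.I` is zero in `R`; the equation: `root` satisfies `wp`. -/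

namespace H77.PB

open H77.AF Polynomial

variable {K0 : Type} [Field K0] [IsAlgClosed K0] {s : ℕ} {W : ES.Wm K0 s}

/-- the map from the ring of the base to the ring of the surface -/
private noncomputable def iot {R : Type} [CommRing R] [Algebra K0 R] (a b : R) : R →ₐ[K0] RS R a b :=
  { (AdjoinRoot.of (wp a b)).comp C with
    commutes' := fun _ => rfl }

omit [IsAlgClosed K0] in
private theorem iot_inj {R : Type} [CommRing R] [Nontrivial R] [Algebra K0 R] (a b : R) {r : R}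
    (h : iot (K0 := K0) a b r = 0) : r = 0 := by
  have h1 : AdjoinRoot.mk (wp a b) (C (C r)) = 0 := h
  rw [AdjoinRoot.mk_eq_zero] at h1
  have hd : (wp a b).natDegree = 2 := natDegree_X_pow_sub_C
  by_contra hr
  have h2 : (C (C r) : R[X][X]) ≠ 0 := by
    rw [Ne, C_eq_zero, C_eq_zero]
    exact hr
  refine (wp_monic a b).not_dvd_of_natDegree_lt h2 ?_ h1
  rw [natDegree_C, hd]
  exact two_pos

private theorem root_eq {R : Type} [CommRing R] (a b : R) :
    AdjoinRoot.root (wp a b) ^ 2 = AdjoinRoot.of (wp a b) (X ^ 3 - C (3 * a) * X - C (2 * b)) := by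
  have key : ∀ g : R[X], wp a b = X ^ 2 - C g → AdjoinRoot.root (wp a b) ^ 2 = AdjoinRoot.of (wp a b) g := by
    intro g hg
    have h2 : AdjoinRoot.mk (wp a b) (X ^ 2 - C g) = 0 := by
      rw [← hg]
      exact AdjoinRoot.mk_self
    rw [map_sub, map_pow, AdjoinRoot.mk_X, AdjoinRoot.mk_C] at h2
    exact sub_eq_zero.mp h2
  exact key _ rfl

omit [IsAlgClosed K0] in
private theorem root_eq2 {R : Type} [CommRing R] [Algebra K0 R] (a b : R) :
    AdjoinRoot.root (wp a b) ^ 2 = AdjoinRoot.of (wp a b) X ^ 3 - 3 * iot (K0 := K0) a b a * AdjoinRoot.of (wp a b) X -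
      2 * iot (K0 := K0) a b b := by
  have h3 : AdjoinRoot.of (wp a b) (C (3 * a)) = 3 * iot (K0 := K0) a b a := by
    change iot (K0 := K0) a b (3 * a) = _
    rw [map_mul, map_ofNat]
  have h4 : AdjoinRoot.of (wp a b) (C (2 * b)) = 2 * iot (K0 := K0) a b b := by
    change iot (K0 := K0) a b (2 * b) = _
    rw [map_mul, map_ofNat]
  rw [root_eq, map_sub, map_sub, map_pow, map_mul, h3, h4]

omit [IsAlgClosed K0] in
/-- the homomorphism given by a point -/
private theorem pt_hom {R : Type} [CommRing R] [Algebra K0 R] (a b : R) (φ : R →ₐ[K0] K0) (x y : K0)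
    (h : y ^ 2 = x ^ 3 - 3 * φ a * x - 2 * φ b) :
    ∃ ψ : RS R a b →ₐ[K0] K0, (∀ r, ψ (iot (K0 := K0) a b r) = φ r) ∧ ψ (AdjoinRoot.of (wp a b) X) = x ∧
      ψ (AdjoinRoot.root (wp a b)) = y := by
  let i : R[X] →ₐ[K0] K0 := eval₂AlgHom φ x (fun _ => Commute.all _ _)
  have hi : ∀ g, i g = eval₂ (φ : R →+* K0) x g := fun _ => rfl
  have h0 : (wp a b).eval₂ (i : R[X] →+* K0) y = 0 := by
    unfold wp
    rw [eval₂_sub, eval₂_pow, eval₂_X, eval₂_C]
    change y ^ 2 - i (X ^ 3 - C (3 * a) * X - C (2 * b)) = 0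
    rw [hi]
    simp only [eval₂_sub, eval₂_pow, eval₂_X, eval₂_mul, eval₂_C]
    have e1 : (φ : R →+* K0) (3 * a) = 3 * φ a := by
      rw [map_mul, map_ofNat]
      rfl
    have e2 : (φ : R →+* K0) (2 * b) = 2 * φ b := by
      rw [map_mul, map_ofNat]
      rfl
    rw [h, e1, e2]
    ring
  refine ⟨AdjoinRoot.liftAlgHom (wp a b) i y h0, ?_, ?_, ?_⟩
  · intro r
    change AdjoinRoot.liftAlgHom (wp a b) i y h0 (AdjoinRoot.of (wp a b) (C r)) = φ r
    rw [AdjoinRoot.liftAlgHom_of, hi, eval₂_C]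
    rfl
  · rw [AdjoinRoot.liftAlgHom_of, hi, eval₂_X]
  · rw [AdjoinRoot.liftAlgHom_root]

theorem nz (hW : W.Ok) (hprime : (Ideal.span W.I).IsPrime) (hD : W.b ^ 2 - W.a ^ 3 ∉ Ideal.span W.I)
    {G : MvPolynomial (Fin s ⊕ Fin 2) K0} {P : ES.Pt s K0} (hP : ES.OnW W P) (hG : evG G P ≠ 0) :
    ∃ P' : ES.Pt s K0, ES.OnW W P' ∧ evG G P' ≠ 0 ∧ ES.dd W P'.β ≠ 0 := by
  have hdR : IsDomain (BR W) := Ideal.Quotient.isDomain (Ideal.span W.I)
  set q : MvPolynomial (Fin s) K0 →ₐ[K0] BR W := Ideal.Quotient.mkₐ K0 (Ideal.span W.I) with hq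
  have hq0 : ∀ f ∈ W.I, q f = 0 := fun f hf => Ideal.Quotient.eq_zero_iff_mem.2 (Ideal.subset_span hf)
  set Z := RS (BR W) (q W.a) (q W.b) with hZ
  have hdZ : IsDomain Z := rs_dom _ _
  have hfR : Algebra.FiniteType K0 (BR W) := inferInstance
  have hfZ : Algebra.FiniteType K0 Z := rs_ft _ _
  set ι : BR W →ₐ[K0] Z := iot (q W.a) (q W.b) with hι
  set u : Fin s ⊕ Fin 2 → Z := Sum.elim (fun i => ι (q (MvPolynomial.X i)))
    ![AdjoinRoot.of (wp (q W.a) (q W.b)) X, AdjoinRoot.root (wp (q W.a) (q W.b))] with hu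
  set GZ : Z := MvPolynomial.aeval u G with hGZ
  set DZ : Z := ι (q W.b ^ 2 - q W.a ^ 3) with hDZ
  -- the point of a homomorphism
  have hev : ∀ (ψ : Z →ₐ[K0] K0) (f : MvPolynomial (Fin s) K0),
      ES.ev f (fun i => ψ (ι (q (MvPolynomial.X i)))) = ψ (ι (q f)) := by
    intro ψ f
    have h1 : MvPolynomial.aeval (fun i => ψ (ι (q (MvPolynomial.X i)))) = (ψ.comp ι).comp q := by
      refine MvPolynomial.algHom_ext fun i => ?_
      rw [MvPolynomial.aeval_X]
      rfl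
    change MvPolynomial.aeval _ f = _
    rw [h1]
    rfl
  have hGev : ∀ ψ : Z →ₐ[K0] K0, ψ GZ = evG G (⟨fun i => ψ (ι (q (MvPolynomial.X i))),
      ψ (AdjoinRoot.of (wp (q W.a) (q W.b)) X), ψ (AdjoinRoot.root (wp (q W.a) (q W.b)))⟩ : ES.Pt s K0) := by
    intro ψ
    have h1 : ψ GZ = (ψ.comp (MvPolynomial.aeval u)) G := rfl
    rw [h1, MvPolynomial.comp_aeval]
    unfold evG
    congr 2
    funext i
    rcases i with i | i
    · rfl
    · fin_cases i <;> rfl
  -- `G` is not zero on the surface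
  have hG0 : GZ ≠ 0 := by
    intro h0
    have hl : ∀ f ∈ Ideal.span W.I, MvPolynomial.aeval P.β f = 0 := by
      intro f hf
      have h2 : Ideal.span W.I ≤ RingHom.ker (MvPolynomial.aeval P.β : MvPolynomial (Fin s) K0 →ₐ[K0] K0) := by
        rw [Ideal.span_le]
        intro g hg
        exact hP.2.1 g hg
      exact h2 hf
    let φ : BR W →ₐ[K0] K0 := Ideal.Quotient.liftₐ (Ideal.span W.I) (MvPolynomial.aeval P.β) hl
    have hφ : ∀ f, φ (q f) = ES.ev f P.β := fun f => rfl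
    obtain ⟨ψ, h1, h2, h3⟩ := pt_hom (q W.a) (q W.b) φ P.x P.y (by
      rw [hφ, hφ]
      exact hP.2.2)
    have h4 := hGev ψ
    rw [h0, map_zero] at h4
    apply hG
    rw [h4]
    congr 1
    refine ES.Pt.ext ?_ h2.symm h3.symm
    funext i
    change P.β i = ψ (ι (q (MvPolynomial.X i)))
    rw [hι, h1, hφ]
    exact (MvPolynomial.aeval_X _ _).symm
  have hD0 : DZ ≠ 0 := by
    intro h0
    have h1 : q W.b ^ 2 - q W.a ^ 3 = 0 := iot_inj (K0 := K0) _ _ h0
    apply hD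
    rw [← map_pow, ← map_pow, ← map_sub] at h1
    exact Ideal.Quotient.eq_zero_iff_mem.1 h1
  obtain ⟨ψ, hψ⟩ := exists_pt (K0 := K0) (mul_ne_zero hG0 hD0)
  rw [map_mul] at hψ
  have hd : ES.dd W (fun i => ψ (ι (q (MvPolynomial.X i)))) ≠ 0 := by
    unfold ES.dd
    rw [hev, hev]
    have h1 := right_ne_zero_of_mul hψ
    rw [hDZ, map_sub, map_sub, map_pow, map_pow, map_pow, map_pow] at h1
    exact h1
  refine ⟨⟨fun i => ψ (ι (q (MvPolynomial.X i))),
      ψ (AdjoinRoot.of (wp (q W.a) (q W.b)) X), ψ (AdjoinRoot.root (wp (q W.a) (q W.b)))⟩, ⟨?_, ?_, ?_⟩, ?_, hd⟩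
  · left
    intro h0
    apply hd
    have h1 : (fun i => ψ (ι (q (MvPolynomial.X i)))) = (0 : Fin s → K0) := h0
    unfold ES.dd
    rw [h1, ES.ev_zero hW.a (by have := hW.n; omega), ES.ev_zero hW.b (by have := hW.n; omega)]
    ring
  · intro f hf
    change ES.ev f (fun i => ψ (ι (q (MvPolynomial.X i)))) = 0
    rw [hev, hq0 f hf, map_zero, map_zero]
  · change ψ (AdjoinRoot.root (wp (q W.a) (q W.b))) ^ 2 = ψ (AdjoinRoot.of (wp (q W.a) (q W.b)) X) ^ 3 -
      3 * ES.ev W.a (fun i => ψ (ι (q (MvPolynomial.X i)))) * ψ (AdjoinRoot.of (wp (q W.a) (q W.b)) X) -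
      2 * ES.ev W.b (fun i => ψ (ι (q (MvPolynomial.X i))))
    rw [hev, hev]
    have h1 := congrArg ψ (root_eq2 (K0 := K0) (q W.a) (q W.b))
    rw [map_pow, map_sub, map_sub, map_pow, map_mul, map_mul, map_mul, map_ofNat, map_ofNat] at h1
    exact h1
  · rw [← hGev]
    exact left_ne_zero_of_mul hψ

end H77.PB
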