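import Pool.Agent.H77.PB.Def

/-! # PB.Off : a point which leaves the affine surface specialises to a point of a singular fibre (about 100 lines)

`hq`: `c ≠ 0`, `c ^ v i * φ (β i)` reduces to `q.β i`, `c ^ (2 n) * x` to `q.x`, `c ^ (3 n) * y` to `q.y` (`φ = y.φ : A →ₐ[K0] Om K`).  Suppose `dd (bc K W) q.β ≠ 0`.  `dd (bc K W)` is weighted homogeneous of degree `12 n` (`ES.ev_scale` for `a` (4n) and `b` (6n), squares and cubes, `bc_ok hW`):
`dd (c · β') = c ^ (12 n) * dd β'` with `β' = fun i => φ (β i)`, and `dd β' = 1` because `hA.disc` (`bc_dd`, `ES.ev` is `MvPolynomial.aeval`, `MvPolynomial.comp_aeval_apply` or `map_aeval`).  By `ES.rd_ev`: `c ^ (12 n)` reduces to `dd q.β ≠ 0`.  So `c ∈ V` (`ES.mem_of_pow`) with nonzero reduction, hence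
`c⁻¹ ∈ V` (`Rd.inv`, `π.isLocal`; `rd_of_mem`).  So `φ (β i) ∈ V`, `y.x ∈ V`, `y.y ∈ V`; `φ r ∈ V` for all `r` because `A` is generated by the `β i` (`hA.gen`, `Algebra.adjoin_induction`; the constants `algebraMap K0 (Om K) c = algebraMap K (Om K) (algebraMap K0 K c) ∈ V` by `π.const`).  This contradicts `hy`. -/

namespace H77.PB

open H68.BB H77.AF

variable {K0 : Type} [Field K0] {s : ℕ} {W : ES.Wm K0 s} {K : Type} [Field K] [IsAlgClosed K] [Algebra K0 K]

theorem off_dd (hW : W.Ok) {A : Type} [CommRing A] [Algebra K0 A] {β : Fin s → A} (hA : Cov W A β) {a b : A}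
    {π : Place K (Om K)} {y : SP K0 A (Om K) a b} (hy : (surf K0 K A a b).off π y) {q : ES.Pt s K}
    (hq : ES.Sp (bc K W) π (tw β y) q) : ES.dd (bc K W) q.β = 0 := by
  obtain ⟨-, c, hc, hb, hx, hyy⟩ := hq
  by_contra hdd
  have hloc := π.isLocal
  have hW' := bc_ok (K := K) hW
  have hn : 0 < W.n := hW.n
  have hbn : (bc K W).n = W.n := rfl
  have h12 : ES.dd (bc K W) (fun i => c ^ (bc K W).v i * (tw β y).β i) =
      c ^ (12 * W.n) * ES.dd (bc K W) (tw β y).β := by
    unfold ES.dd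
    rw [ES.ev_scale hW'.a, ES.ev_scale hW'.b, hbn]
    ring
  have h1 : ES.dd (bc K W) (tw β y).β = 1 := by
    rw [bc_dd]
    have h2 := congrArg y.φ hA.disc
    rw [map_sub, map_pow, map_pow, map_one, MvPolynomial.comp_aeval_apply, MvPolynomial.comp_aeval_apply] at h2
    exact h2
  have hrd : Rd π.V π.φ (c ^ (12 * W.n)) (ES.dd (bc K W) q.β) := by
    have h3 : Rd π.V π.φ (ES.dd (bc K W) (fun i => c ^ (bc K W).v i * (tw β y).β i)) (ES.dd (bc K W) q.β) := by
      unfold ES.dd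
      exact ((ES.rd_ev _ hb).pow 2).sub ((ES.rd_ev _ hb).pow 3)
    rw [h12, h1, mul_one] at h3
    exact h3
  have hcV : c ∈ π.V := ES.mem_of_pow (n := 12 * W.n) (by omega) hrd.mem
  have hcr : Rd π.V π.φ c (π.φ ⟨c, hcV⟩) := Rd.of_mem hcV
  have hr0 : π.φ ⟨c, hcV⟩ ≠ 0 := by
    intro h
    rw [h] at hcr
    have h4 := hcr.pow (12 * W.n)
    rw [zero_pow (by omega)] at h4
    exact hdd (hrd.unique h4)
  have hci : c⁻¹ ∈ π.V := (hcr.inv hr0).mem
  have key : ∀ (m : ℕ) (z : Om K), c ^ m * z ∈ π.V → z ∈ π.V := by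
    intro m z hz
    have h5 : z = c⁻¹ ^ m * (c ^ m * z) := by
      rw [← mul_assoc, ← mul_pow, inv_mul_cancel₀ hc, one_pow, one_mul]
    rw [h5]
    exact π.V.mul_mem _ _ (pow_mem hci m) hz
  have hxV : y.x ∈ π.V := key _ _ hx.mem
  have hyV : y.y ∈ π.V := key _ _ hyy.mem
  have hbV : ∀ i, y.φ (β i) ∈ π.V := fun i => key _ _ (hb i).mem
  have hall : ∀ r : A, y.φ r ∈ π.V := by
    intro r
    have hr : r ∈ Algebra.adjoin K0 (Set.range β) := by
      rw [hA.gen]
      exact Algebra.mem_top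
    induction hr using Algebra.adjoin_induction with
    | mem x hx =>
      obtain ⟨i, rfl⟩ := hx
      exact hbV i
    | algebraMap k =>
      rw [AlgHom.commutes, IsScalarTower.algebraMap_apply K0 K (Om K)]
      exact (π.const (algebraMap K0 K k)).choose
    | add x y _ _ hx hy =>
      rw [map_add]
      exact π.V.add_mem _ _ hx hy
    | mul x y _ _ hx hy =>
      rw [map_mul]
      exact π.V.mul_mem _ _ hx hy
  rcases hy with ⟨r, hr⟩ | h | h
  · exact hr (hall r)
  · exact h hxV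
  · exact h hyV

end H77.PB
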