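import Pool.Agent.H77.PB.Fib
import Pool.Agent.H77.PB.Off
import Pool.Agent.H77.PB.Cur
import Pool.Agent.H77.PB.Mcon
import Pool.Agent.H77.AF.FinS

/-! # PB.Tra : transfer between the affine surface and the projective surface `W` (assembled from the modules) -/

namespace H77.PB

open H68.BB H77.AF Polynomial

variable {K0 : Type} [Field K0] {s : ℕ} {W : ES.Wm K0 s}

/-- the polynomial `G(β, x, y)` with coefficients in `A` -/
noncomputable def gP {A : Type} [CommRing A] [Algebra K0 A] (β : Fin s → A) (G : MvPolynomial (Fin s ⊕ Fin 2) K0) : A[X][X] :=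
  MvPolynomial.aeval (Sum.elim (fun i => C (C (β i))) ![C X, X]) G

section
variable {A F : Type} [CommRing A] [Algebra K0 A] [Field F] [Algebra K0 F] {a b : A} {β : Fin s → A}

private theorem val_eq' (P : SP K0 A F a b) (G : A[X][X]) :
    P.val G = eval₂RingHom (eval₂RingHom (P.φ : A →+* F) P.x) P.y G := by
  unfold SP.val
  rw [← eval₂_evalRingHom, eval₂_map, coe_eval₂RingHom]
  congr 1
  ext r
  · simp
  · simp

theorem gP_val (P : SP K0 A F a b) (G : MvPolynomial (Fin s ⊕ Fin 2) K0) : P.val (gP β G) = evG G (tw β P) := by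
  rw [val_eq']
  unfold gP evG
  induction G using MvPolynomial.induction_on with
  | C c =>
    rw [MvPolynomial.aeval_C, MvPolynomial.aeval_C]
    change eval₂RingHom (eval₂RingHom (P.φ : A →+* F) P.x) P.y (C (C (algebraMap K0 A c))) = _
    rw [coe_eval₂RingHom, eval₂_C, coe_eval₂RingHom, eval₂_C]
    exact P.φ.commutes c
  | add p q hp hq => rw [map_add, map_add, map_add, hp, hq]
  | mul_X p i hp =>
    rw [map_mul, map_mul, map_mul, hp, MvPolynomial.aeval_X, MvPolynomial.aeval_X]
    congr 1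
    rcases i with i | i
    · rw [Sum.elim_inl, Sum.elim_inl, coe_eval₂RingHom, eval₂_C, coe_eval₂RingHom, eval₂_C]
      rfl
    · rw [Sum.elim_inr, Sum.elim_inr]
      fin_cases i
      · change eval₂RingHom (eval₂RingHom (P.φ : A →+* F) P.x) P.y (C X) = P.x
        rw [coe_eval₂RingHom, eval₂_C, coe_eval₂RingHom, eval₂_X]
      · change eval₂RingHom (eval₂RingHom (P.φ : A →+* F) P.x) P.y X = P.y
        rw [coe_eval₂RingHom, eval₂_X]

theorem ev_tw (φ : A →ₐ[K0] F) (f : MvPolynomial (Fin s) K0) : ES.ev f (fun i => φ (β i)) = φ (MvPolynomial.aeval β f) := by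
  unfold ES.ev
  rw [MvPolynomial.comp_aeval_apply]

theorem dd_tw (hA : Cov W A β) (φ : A →ₐ[K0] F) : ES.dd W (fun i => φ (β i)) = 1 := by
  have h := congrArg φ hA.disc
  rw [map_sub, map_pow, map_pow, map_one] at h
  unfold ES.dd
  rw [ev_tw, ev_tw]
  exact h

theorem dd_zero (hW : W.Ok) : ES.dd W (0 : Fin s → F) = 0 := by
  have := hW.n
  unfold ES.dd
  rw [ES.ev_zero hW.a (by omega), ES.ev_zero hW.b (by omega)]
  ring

theorem tw_on (hW : W.Ok) (hA : Cov W A β) (P : SP K0 A F (MvPolynomial.aeval β W.a) (MvPolynomial.aeval β W.b)) :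
    ES.OnW W (tw β P) := by
  refine ⟨Or.inl ?_, ?_, ?_⟩
  · intro h
    have h1 := dd_tw hA P.φ
    have h2 : (fun i => P.φ (β i)) = (0 : Fin s → F) := h
    rw [h2, dd_zero hW] at h1
    exact zero_ne_one h1
  · intro f hf
    change ES.ev f (fun i => P.φ (β i)) = 0
    rw [ev_tw, hA.eqs f hf, map_zero]
  · change P.y ^ 2 = P.x ^ 3 - 3 * ES.ev W.a (fun i => P.φ (β i)) * P.x - 2 * ES.ev W.b (fun i => P.φ (β i))
    rw [ev_tw, ev_tw]
    exact P.eq

theorem evG_smul {G : MvPolynomial (Fin s ⊕ Fin 2) K0} {e : ℕ} (hG : MvPolynomial.IsWeightedHomogeneous (wtG W) G e) (c : F)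
    (P : ES.Pt s F) : evG G (P.smul W c) = c ^ e * evG G P := by
  have hv : (Sum.elim (P.smul W c).β ![(P.smul W c).x, (P.smul W c).y] : Fin s ⊕ Fin 2 → F) =
      fun i => c ^ wtG W i * Sum.elim P.β ![P.x, P.y] i := by
    funext i
    rcases i with i | i
    · rfl
    · fin_cases i
      · rfl
      · rfl
  unfold evG
  rw [hv, MvPolynomial.aeval_def, MvPolynomial.aeval_def, MvPolynomial.eval₂_eq', MvPolynomial.eval₂_eq', Finset.mul_sum]
  refine Finset.sum_congr rfl fun d hd => ?_
  have h1 := hG (MvPolynomial.mem_support_iff.1 hd)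
  have h2 : ∏ i, (c ^ wtG W i * Sum.elim P.β ![P.x, P.y] i) ^ d i = c ^ e * ∏ i, Sum.elim P.β ![P.x, P.y] i ^ d i := by
    rw [← h1, Finsupp.weight_apply, Finsupp.sum_fintype d (fun i c => c • wtG W i) (fun _ => zero_smul _ _),
      ← Finset.prod_pow_eq_pow_sum, ← Finset.prod_mul_distrib]
    refine Finset.prod_congr rfl fun i _ => ?_
    rw [mul_pow, ← pow_mul, smul_eq_mul, mul_comm (d i)]
  rw [h2]
  ring

/-- a point of a smooth fibre is a multiple of a point of the affine surface -/
theorem lift_pt (hW : W.Ok) {φ : A →ₐ[K0] F} {c : F} {P : ES.Pt s F} (hP : ES.OnW W P)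
    (hφ : ∀ i, φ (β i) = c ^ W.v i * P.β i) :
    ∃ P' : SP K0 A F (MvPolynomial.aeval β W.a) (MvPolynomial.aeval β W.b), tw β P' = P.smul W c := by
  have h1 : (fun i => φ (β i)) = fun i => c ^ W.v i * P.β i := funext hφ
  refine ⟨⟨φ, c ^ (2 * W.n) * P.x, c ^ (3 * W.n) * P.y, ?_⟩, ?_⟩
  · rw [← ev_tw, ← ev_tw, h1, ES.ev_scale hW.a, ES.ev_scale hW.b]
    linear_combination c ^ (6 * W.n) * hP.2.2
  · refine ES.Pt.ext ?_ rfl rfl
    exact h1

end

theorem mapDomain_sub {X : Type} {p : X → Prop} {z : X →₀ ℤ} (hz : ∀ P ∈ z.support, p P) :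
    Finsupp.mapDomain Subtype.val (z.subtypeDomain p) = z := by
  classical
  ext P
  by_cases hP : p P
  · have h1 := Finsupp.mapDomain_apply (f := (Subtype.val : Subtype p → X)) Subtype.val_injective (z.subtypeDomain p) ⟨P, hP⟩
    rw [Finsupp.subtypeDomain_apply] at h1
    exact h1
  · rw [Finsupp.mapDomain_of_notMem_range]
    · by_contra h
      exact hP (hz P (Finsupp.mem_support_iff.2 (Ne.symm h)))
    · rintro ⟨⟨Q, hQ⟩, rfl⟩
      exact hP hQ

/-- the points of the affine surface `y^2 = x^3 - 3 a(β) x - 2 b(β)` over `K` -/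
noncomputable abbrev sf (K : Type) [Field K] [Algebra K0 K] (W : ES.Wm K0 s) {A : Type} [CommRing A] [Algebra K0 A]
    (β : Fin s → A) : PD K := surf K0 K A (MvPolynomial.aeval β W.a) (MvPolynomial.aeval β W.b)

/-- the transfer over the field `K` -/
structure Tra (K : Type) [Field K] [Algebra K0 K] (W : ES.Wm K0 s) {A : Type} [CommRing A] [Algebra K0 A] (β : Fin s → A)
    (L : Cyc1 (sf K W β) →+ Cyc1 (pw (bc K W))) (Φ : ∀ k : ℕ, Cyc (sf K W β) k →+ Cyc (pw (bc K W)) k) : Prop where
  push : ∀ k x, x ∈ tor (RatEq (sf K W β) k) → Φ k x ∈ tor (RatEq (pw (bc K W)) k)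
  mul : ∀ (k : ℕ) (mul : MultilinearMap ℤ (fun _ : Fin k => Cyc1 (pw (bc K W))) (Cyc (pw (bc K W)) k)), IsPr mul →
    ∀ u : Fin k → Cyc1 (sf K W β), Φ k (prodM u) = mul (fun i => L (u i))
  let0 : ∀ w : Cyc1 (pw (bc K W)), (w.sum fun _ n => n) = 0 → ∃ v : Cyc1 (sf K W β),
    up (w - L v) ∈ tor (RatEq (pw (bc K W)) 1) ∧ ∀ (G : MvPolynomial (Fin s ⊕ Fin 2) K0) (e : ℕ),
      MvPolynomial.IsWeightedHomogeneous (wtG W) G e → (∀ P ∈ w.support, evG G P.1 = 0) →
      ∀ Q ∈ v.support, SP.val Q (gP β G) = 0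

theorem tra (hW : W.Ok) {A : Type} [CommRing A] [Algebra K0 A] {β : Fin s → A} (hA : Cov W A β) (K : Type) [Field K]
    [IsAlgClosed K] [CharZero K] [Algebra K0 K]
    (hpts : ∀ p : Fin s → K, (∀ f ∈ W.I, ES.ev f p = 0) → ES.dd W p ≠ 0 →
      ∃ (φ : A →ₐ[K0] K) (c : K), c ≠ 0 ∧ ∀ i, φ (β i) = c ^ W.v i * p i) :
    ∃ (L : Cyc1 (sf K W β) →+ Cyc1 (pw (bc K W))) (Φ : ∀ k : ℕ, Cyc (sf K W β) k →+ Cyc (pw (bc K W)) k), Tra K W β L Φ := by
  classical
  have hOk : (bc K W).Ok := bc_ok hW
  have hon : ∀ {F : Type} [Field F] [Algebra K0 F] [Algebra K F] [IsScalarTower K0 K F] {P : ES.Pt s F},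
      ES.OnW (bc K W) P ↔ ES.OnW W P := bc_on
  have hddW : ∀ q : Fin s → K, ES.dd (bc K W) q = ES.dd W q := fun q => bc_dd W q
  have hsmW : ∀ (c : K) (P : ES.Pt s K), P.smul (bc K W) c = P.smul W c := fun c P => rfl
  let oX : (pw (bc K W)).X := ⟨ES.o s K, ES.OnW_o hOk K⟩
  let tX : (sf K W β).X → (pw (bc K W)).X := fun P => ⟨tw β P, hon.2 (tw_on hW hA P)⟩
  let tY : (sf K W β).Y → (pw (bc K W)).Y := fun P => ⟨tw β P, hon.2 (tw_on hW hA P)⟩
  let L : Cyc1 (sf K W β) →+ Cyc1 (pw (bc K W)) :=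
    Finsupp.liftAddHom fun P => zmultiplesHom _ (Finsupp.single (tX P) 1 - Finsupp.single oX 1)
  have hL : ∀ v, L v = v.sum fun P n => n • (Finsupp.single (tX P) 1 - Finsupp.single oX 1) := by
    intro v
    rfl
  refine ⟨L, fun k => H25.DP.phi (sf K W β) tX (fun _ => oX) k, ?_, ?_, ?_⟩
  · intro k x hx
    refine H25.DP.push_pd tX (fun _ => oX) tY (fun _ => (pw (bc K W)).cst oX) ?_ ?_ ?_ ?_ ?_ ?_ hx
    · intro σ y
      exact Subtype.ext rfl
    · intro σ y
      exact (pw (bc K W)).act_cst σ oX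
    · intro π y x hyx
      exact ES.Sp_fin (tX x).2.1 (fun i => hyx.1 (β i)) hyx.2.1 hyx.2.2
    · intro π y x hyx
      exact (pw (bc K W)).sp_cst π oX
    · intro π y
      obtain ⟨p, hp⟩ := ES.Sp_exists (W := bc K W) hOk π y.2.1
      exact ⟨⟨p, ES.Sp_onW hOk y.2 hp⟩, hp⟩
    · intro π y xp xm hoff hp hm
      apply le_tor
      refine sing hOk xp xm ?_ ?_
      · exact off_dd hW hA hoff hp
      · obtain ⟨_, c, _, h1, _⟩ := hm
        funext i
        have h2 := h1 i
        have h3 : c ^ (bc K W).v i * (((pw (bc K W)).cst oX).1.β i) = 0 := by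
          change c ^ (bc K W).v i * (algebraMap K (Om K) 0) = 0
          rw [map_zero, mul_zero]
        rw [h3] at h2
        exact h2.unique Rd.zero
  · intro k mulk hmk u
    have hex := fun k => exists_mul (pw (bc K W)) k
    choose mul hmul hpr using hex
    have h1 := phi_prod (D := sf K W β) hpr tX (fun _ => oX) u
    have h2 : mulk = mul k := by
      refine MultilinearMap.ext fun z => ?_
      rw [← sub_eq_zero]
      have h3 := multi_mem (⊥ : AddSubgroup (Cyc (pw (bc K W)) k)) (mulk - mul k)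
        (fun _ => {w : Cyc1 (pw (bc K W)) | ∃ P, P ∈ (Set.univ : Set (pw (bc K W)).X) ∧ w = Finsupp.single P 1}) ?_ z
        (fun j => supp_closure (fun P _ => Set.mem_univ P))
      · exact (AddSubgroup.mem_bot).1 h3
      · intro y hy
        choose P _ hP using hy
        have h4 : y = fun i => Finsupp.single (P i) 1 := funext hP
        rw [h4, AddSubgroup.mem_bot, MultilinearMap.sub_apply, hmk, hpr, sub_self]
    rw [h2]
    exact h1
  · intro w hw0'
    have hletter : ∀ P : (pw (bc K W)).X, ∃ v : Cyc1 (sf K W β),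
        (∀ (G : MvPolynomial (Fin s ⊕ Fin 2) K0) (e : ℕ), MvPolynomial.IsWeightedHomogeneous (wtG W) G e →
          evG G P.1 = 0 → ∀ Q ∈ v.support, SP.val Q (gP β G) = 0) ∧
          up ((Finsupp.single P 1 - Finsupp.single oX 1) - L v) ∈ RatEq (pw (bc K W)) 1 := by
      intro P
      by_cases hd : ES.dd (bc K W) P.1.β = 0
      · refine ⟨0, fun _ _ _ _ Q hQ => by simp at hQ, ?_⟩
        rw [map_zero, sub_zero]
        have h1 := sing hOk P oX hd rfl
        have h2 : up (D := pw (bc K W)) (Finsupp.single P 1 - Finsupp.single oX 1) =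
            Finsupp.single (fun _ => P) 1 - Finsupp.single (fun _ => oX) 1 := by
          rw [map_sub]
          unfold up
          rw [Finsupp.mapDomain.addMonoidHom_apply, Finsupp.mapDomain.addMonoidHom_apply, Finsupp.mapDomain_single,
            Finsupp.mapDomain_single]
        rw [h2]
        exact h1
      · have hd' : ES.dd W P.1.β ≠ 0 := by
          rw [← hddW]
          exact hd
        obtain ⟨φ, c, hc, hφ⟩ := hpts P.1.β (hon.1 P.2).2.1 hd'
        obtain ⟨P', hP'⟩ : ∃ P' : (sf K W β).X, tw β P' = P.1.smul W c := lift_pt hW (hon.1 P.2) hφ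
        refine ⟨Finsupp.single P' 1, fun G e hG hGP => ?_, ?_⟩
        · intro Q hQ
          have h1 : Q = P' := by
            have h2 := Finsupp.support_single_subset hQ
            exact Finset.mem_singleton.1 h2
          rw [h1, gP_val, hP', evG_smul hG, hGP, mul_zero]
        · have h1 : L (Finsupp.single P' 1) = Finsupp.single (tX P') 1 - Finsupp.single oX 1 := by
            rw [hL]
            exact (Finsupp.sum_single_index (h := fun P n => n • (Finsupp.single (tX P) (1 : ℤ) - Finsupp.single oX 1))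
              (zero_smul _ _)).trans (one_smul _ _)
          rw [h1, sub_sub_sub_cancel_right]
          have h2 : up (D := pw (bc K W)) (Finsupp.single P 1 - Finsupp.single (tX P') 1) =
              -(Finsupp.single (fun _ => tX P') 1 - Finsupp.single (fun _ => P) 1) := by
            rw [map_sub, neg_sub]
            unfold up
            rw [Finsupp.mapDomain.addMonoidHom_apply, Finsupp.mapDomain.addMonoidHom_apply, Finsupp.mapDomain_single,
              Finsupp.mapDomain_single]
          rw [h2]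
          refine AddSubgroup.neg_mem _ (scal P hc (tX P') ?_)
          exact hP'.trans (hsmW c P.1).symm
    choose v hv1 hv2 using hletter
    have hw0 : ∑ P ∈ w.support, w P = 0 := hw0'
    refine ⟨∑ P ∈ w.support, w P • v P, ?_, ?_⟩
    · apply le_tor
      have h1 : w - L (∑ P ∈ w.support, w P • v P) =
          ∑ P ∈ w.support, w P • ((Finsupp.single P 1 - Finsupp.single oX 1) - L (v P)) := by
        have h2 : w = ∑ P ∈ w.support, w P • (Finsupp.single P (1 : ℤ) - Finsupp.single oX 1) := by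
          have h3 : ∑ P ∈ w.support, w P • (Finsupp.single oX (1 : ℤ) : Cyc1 (pw (bc K W))) = 0 := by
            rw [← Finset.sum_smul, hw0, zero_smul]
          have h4 : ∑ P ∈ w.support, w P • (Finsupp.single P (1 : ℤ) - Finsupp.single oX 1) =
              ∑ P ∈ w.support, w P • (Finsupp.single P (1 : ℤ) : Cyc1 (pw (bc K W))) := by
            rw [← sub_zero (∑ P ∈ w.support, w P • (Finsupp.single P (1 : ℤ) : Cyc1 (pw (bc K W)))), ← h3,
              ← Finset.sum_sub_distrib]
            exact Finset.sum_congr rfl fun P _ => smul_sub _ _ _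
          rw [h4]
          conv_lhs => rw [← Finsupp.sum_single w]
          unfold Finsupp.sum
          refine Finset.sum_congr rfl fun P _ => ?_
          rw [Finsupp.smul_single, smul_eq_mul, mul_one]
        have h5 : L (∑ P ∈ w.support, w P • v P) = ∑ P ∈ w.support, w P • L (v P) := by
          rw [map_sum]
          exact Finset.sum_congr rfl fun P _ => map_zsmul L _ _
        rw [h5]
        refine (congrArg (fun t => t - ∑ P ∈ w.support, w P • L (v P)) h2).trans ?_
        refine (Finset.sum_sub_distrib _ _).symm.trans ?_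
        exact Finset.sum_congr rfl fun P _ => (smul_sub _ _ _).symm
      rw [h1, map_sum]
      refine AddSubgroup.sum_mem _ fun P hP => ?_
      rw [map_zsmul]
      exact AddSubgroup.zsmul_mem _ (hv2 P) _
    · intro G e hG hwG Q hQ
      by_contra hcon
      rw [Finsupp.mem_support_iff] at hQ
      apply hQ
      rw [Finsupp.finset_sum_apply]
      refine Finset.sum_eq_zero fun P hP => ?_
      rw [Finsupp.smul_apply]
      have h1 : (v P) Q = 0 := by
        by_contra h2
        exact hcon (hv1 P G e hG (hwG P hP) Q (Finsupp.mem_support_iff.2 h2))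
      rw [h1, smul_zero]

end H77.PB
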