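import Pool.Agent.H77.UB.V1

/-! # PB.V1T : V1 for affine surfaces, with a transcendental element

`A` is a finite faithful `K0[X]`-module through `X ↦ T`, so `H77.UB.halt` applies, and then `H77.AF.finS`. -/

namespace H77.PB

open H68.BB Polynomial H77.AF

theorem int_X {K0 A : Type} [Field K0] [CommRing A] [Algebra K0 A]
    [Algebra K0[X] A] {T : A} (hT : ∀ p : K0[X], algebraMap K0[X] A p = aeval T p)
    {r : A} (hr : IsIntegral (Algebra.adjoin K0 ({T} : Set A)) r) : IsIntegral K0[X] r := by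
  obtain ⟨p, hp, hp0⟩ := hr
  have hTm : T ∈ Algebra.adjoin K0 ({T} : Set A) := Algebra.subset_adjoin rfl
  let f : K0[X] →ₐ[K0] Algebra.adjoin K0 ({T} : Set A) := aeval ⟨T, hTm⟩
  have hf : ∀ q : K0[X], ((f q : Algebra.adjoin K0 ({T} : Set A)) : A) = aeval T q := by
    intro q
    exact (aeval_algHom_apply (Algebra.adjoin K0 ({T} : Set A)).val ⟨T, hTm⟩ q).symm
  have hs : Function.Surjective (f : K0[X] →+* Algebra.adjoin K0 ({T} : Set A)) := by
    rintro ⟨y, hy⟩
    rw [Algebra.adjoin_singleton_eq_range_aeval] at hy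
    obtain ⟨q, rfl⟩ := hy
    exact ⟨q, Subtype.ext (hf q)⟩
  have hl : p ∈ Polynomial.lifts (f : K0[X] →+* Algebra.adjoin K0 ({T} : Set A)) := by
    rw [Polynomial.lifts_iff_coeff_lifts]
    intro n
    exact hs _
  obtain ⟨q, hq1, -, hq3⟩ := Polynomial.lifts_and_natDegree_eq_and_monic hl hp
  refine ⟨q, hq3, ?_⟩
  rw [← hq1, eval₂_map] at hp0
  have he : (algebraMap (Algebra.adjoin K0 ({T} : Set A)) A).comp (f : K0[X] →+* _) = algebraMap K0[X] A := by
    refine RingHom.ext fun c => ?_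
    rw [hT]
    exact hf c
  rw [← he]
  exact hp0

theorem v1T {K0 A : Type} [Field K0] [IsAlgClosed K0] [CharZero K0] [CommRing A] [IsDomain A] [Algebra K0 A]
    [Algebra.FiniteType K0 A] {T : A} (hT : Transcendental K0 T)
    (hint : ∀ x : A, IsIntegral (Algebra.adjoin K0 ({T} : Set A)) x) {a b : A}
    {G : A[X][X]} (hG : ∃ P : SP K0 A K0 a b, P.val G ≠ 0) :
    ∃ M : ℕ, 0 < M ∧ ∀ (K : Type) [Field K] [IsAlgClosed K] [Algebra K0 K] (z : Fin M → Cyc1 (surf K0 K A a b)),
      (∀ i, ∀ P : SP K0 A K a b, P ∈ (z i).support → P.val G = 0) → prodM z ∈ tor (RatEq (surf K0 K A a b) M) := by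
  letI i1 : Algebra K0[X] A := (aeval (R := K0) T).toRingHom.toAlgebra
  have hX : ∀ p : K0[X], algebraMap K0[X] A p = aeval T p := fun p => rfl
  haveI i2 : IsScalarTower K0 K0[X] A := IsScalarTower.of_algebraMap_eq (fun c => by
    rw [hX]
    exact ((aeval (R := K0) T).commutes c).symm)
  haveI i3 : FaithfulSMul K0[X] A := (faithfulSMul_iff_algebraMap_injective _ _).2 (transcendental_iff_injective.1 hT)
  haveI i5 : Algebra.FiniteType K0[X] A := Algebra.FiniteType.of_restrictScalars_finiteType K0 K0[X] A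
  haveI i6 : Algebra.IsIntegral K0[X] A := ⟨fun r => int_X hX (hint r)⟩
  haveI i4 : Module.Finite K0[X] A := Algebra.IsIntegral.finite
  obtain ⟨k, hk⟩ := H77.UB.halt (K0 := K0) a b
  exact finS (T := T) hint (k := k) (fun K _ _ _ P => hk (k + 1) (Nat.le_succ k) K P) hG

end H77.PB
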