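import Pool.Agent.H77.PB.Cmp2
import Pool.Agent.H77.PB.Tra
import Pool.Agent.H77.PB.NZ
import Pool.Agent.H77.PB.V1T
import Pool.Agent.H77.PB.HaltT

/-! # PB.Main : zero-cycles on the powers of elliptic surfaces over arbitrary base curves

`main_v1`: exterior products of many zero-cycles of degree zero supported on a curve of `W` are torsion, uniformly in the field.
`main_alt`: alternating exterior products of many zero-cycles of degree zero are torsion, uniformly in the field. -/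

namespace H77.PB

open H68.BB H77.AF Polynomial

variable {K0 : Type} [Field K0] {s : ℕ} {W : ES.Wm K0 s}

/-- the alternating exterior product -/
noncomputable def altX {X : Type} {k : ℕ} (z : Fin k → (X →₀ ℤ)) : (Fin k → X) →₀ ℤ :=
  ∑ σ : Equiv.Perm (Fin k), (Equiv.Perm.sign σ : ℤ) • prodX (fun i => z (σ i))

/-- a zero-cycle on `W_K` as a zero-cycle of the point data -/
private theorem lift_w {K : Type} [Field K] [Algebra K0 K] {z : ES.Pt s K →₀ ℤ} (hz : ∀ P ∈ z.support, ES.OnW W P)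
    (hdeg : (z.sum fun _ n => n) = 0) : ∃ w : Cyc1 (pw (bc K W)), Finsupp.mapDomain Subtype.val w = z ∧
      (w.sum fun _ n => n) = 0 ∧ ∀ P ∈ w.support, P.1 ∈ z.support := by
  have hw : Finsupp.mapDomain Subtype.val (z.subtypeDomain (fun P => ES.OnW (bc K W) P)) = z :=
    mapDomain_sub (fun P hP => bc_on.2 (hz P hP))
  refine ⟨z.subtypeDomain (fun P => ES.OnW (bc K W) P), hw, ?_, ?_⟩
  · have h1 := hdeg
    rw [← hw, Finsupp.sum_mapDomain_index (fun _ => rfl) (fun _ _ _ => rfl)] at h1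
    exact h1
  · intro P hP
    rw [Finsupp.mem_support_iff] at hP ⊢
    exact hP

theorem main_v1 [IsAlgClosed K0] [CharZero K0] (hW : W.Ok) (hC : Curve W) (hD : W.b ^ 2 - W.a ^ 3 ∉ Ideal.span W.I)
    {G : MvPolynomial (Fin s ⊕ Fin 2) K0} {e : ℕ} (hG : MvPolynomial.IsWeightedHomogeneous (wtG W) G e)
    (hG0 : ∃ P : ES.Pt s K0, ES.OnW W P ∧ evG G P ≠ 0) :
    ∃ M : ℕ, 0 < M ∧ ∀ (K : Type) [Field K] [IsAlgClosed K] [Algebra K0 K] (z : Fin M → (ES.Pt s K →₀ ℤ)),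
      (∀ i, ((z i).sum fun _ n => n) = 0) → (∀ i, ∀ P ∈ (z i).support, ES.OnW W P ∧ evG G P = 0) →
      ∃ N : ℕ, 0 < N ∧ N • prodX z ∈ ES.RatEq M (bc K W) := by
  classical
  obtain ⟨A, _, _, _, β, hA, hft, ⟨T, hT, hint⟩, hpts⟩ := exists_cov hW hC hD
  obtain ⟨P0, hP0, hG0⟩ := hG0
  obtain ⟨P1, hP1, hG1, hd1⟩ := nz hW hC.prime hD hP0 hG0
  have hne : ∃ P : SP K0 A K0 (MvPolynomial.aeval β W.a) (MvPolynomial.aeval β W.b), P.val (gP β G) ≠ 0 := by
    obtain ⟨φ, c, hc, hφ⟩ := hpts K0 P1.β hP1.2.1 hd1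
    obtain ⟨P', hP'⟩ := lift_pt hW hP1 hφ
    refine ⟨P', ?_⟩
    rw [gP_val, hP', evG_smul hG]
    exact mul_ne_zero (pow_ne_zero _ hc) hG1
  obtain ⟨M, hM, hv1⟩ := v1T hT hint hne
  refine ⟨M, hM, ?_⟩
  intro K _ _ _ z hdeg hz
  have hch : CharZero K := charZero_of_injective_algebraMap (algebraMap K0 K).injective
  obtain ⟨L, Φ, hT⟩ := tra hW hA K (hpts K)
  have hw := fun i => lift_w (W := W) (fun P hP => (hz i P hP).1) (hdeg i)
  choose w hw1 hw2 hw3 using hw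
  have hu := fun i => hT.let0 (w i) (hw2 i)
  choose u hu1 hu2 using hu
  obtain ⟨mul, hmul, hpr⟩ := exists_mul (pw (bc K W)) M
  obtain ⟨v, hv1', hv2⟩ := cmpV (bc K W) M
  have h1 := mul_con hpr w (fun i => L (u i)) hu1
  have h2 := hT.push M _ (hv1 K u (fun i Q hQ => hu2 i G e hG (fun P hP => (hz i _ (hw3 i P hP)).2) Q hQ))
  rw [hT.mul M mul hpr u] at h2
  have h3 := AddSubgroup.add_mem _ h1 h2
  rw [sub_add_cancel, hmul] at h3
  have h4 := hv1' _ h3
  rw [hv2 z w hw1] at h4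
  exact h4

/-- the alternating sum of the products is in `tor` if it is for all tuples of points -/
private theorem alt_mem {K : Type} [Field K] {D : PD K} {k : ℕ}
    (h : ∀ P : Fin k → D.X, ∑ σ : Equiv.Perm (Fin k), (Equiv.Perm.sign σ : ℤ) •
      (Finsupp.single (fun i => P (σ i)) 1 : Cyc D k) ∈ tor (RatEq D k)) (u : Fin k → Cyc1 D) :
    ∑ σ : Equiv.Perm (Fin k), (Equiv.Perm.sign σ : ℤ) • prodM (fun i => u (σ i)) ∈ tor (RatEq D k) := by
  classical
  obtain ⟨mul, hmul, hpr⟩ := exists_mul D k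
  have h1 := multi_mem (tor (RatEq D k))
    (∑ σ : Equiv.Perm (Fin k), (Equiv.Perm.sign σ : ℤ) • mul.domDomCongr σ⁻¹)
    (fun _ => {w : Cyc1 D | ∃ P, P ∈ (Set.univ : Set D.X) ∧ w = Finsupp.single P 1}) ?_ u
    (fun j => supp_closure (fun P _ => Set.mem_univ P))
  · rw [sum_apply] at h1
    have e1 : ∀ σ : Equiv.Perm (Fin k), ((Equiv.Perm.sign σ : ℤ) • mul.domDomCongr σ⁻¹) u =
        (Equiv.Perm.sign σ : ℤ) • prodM (fun i => u (σ⁻¹ i)) := by
      intro σ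
      rw [smul_apply, MultilinearMap.domDomCongr_apply, hmul]
    rw [Finset.sum_congr rfl fun σ _ => e1 σ] at h1
    refine Eq.mp (congrArg (fun t => t ∈ tor (RatEq D k)) ?_) h1
    refine Fintype.sum_equiv (Equiv.inv _) _ _ fun σ => ?_
    rw [Equiv.inv_apply, Equiv.Perm.sign_inv]
  · intro y hy
    choose P _ hP using hy
    have h4 : y = fun i => Finsupp.single (P i) 1 := funext hP
    rw [h4, sum_apply]
    have e1 : ∀ σ : Equiv.Perm (Fin k), ((Equiv.Perm.sign σ : ℤ) • mul.domDomCongr σ⁻¹)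
        (fun i => Finsupp.single (P i) 1) =
        (Equiv.Perm.sign σ : ℤ) • (Finsupp.single (fun i => P (σ⁻¹ i)) 1 : Cyc D k) := by
      intro σ
      rw [smul_apply, MultilinearMap.domDomCongr_apply, hpr]
    rw [Finset.sum_congr rfl fun σ _ => e1 σ]
    refine Eq.mp (congrArg (fun t => t ∈ tor (RatEq D k)) ?_) (h P)
    refine (Fintype.sum_equiv (Equiv.inv _) _ _ fun σ => ?_).symm
    rw [Equiv.inv_apply, Equiv.Perm.sign_inv]

theorem main_alt [IsAlgClosed K0] [CharZero K0] (hW : W.Ok) (hC : Curve W) (hD : W.b ^ 2 - W.a ^ 3 ∉ Ideal.span W.I) :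
    ∃ k0 : ℕ, ∀ k, k0 ≤ k → ∀ (K : Type) [Field K] [IsAlgClosed K] [Algebra K0 K] (z : Fin k → (ES.Pt s K →₀ ℤ)),
      (∀ i, ((z i).sum fun _ n => n) = 0) → (∀ i, ∀ P ∈ (z i).support, ES.OnW W P) →
      ∃ N : ℕ, 0 < N ∧ N • altX z ∈ ES.RatEq k (bc K W) := by
  classical
  obtain ⟨A, _, _, _, β, hA, hft, ⟨T, hT, hint⟩, hpts⟩ := exists_cov hW hC hD
  obtain ⟨k0, hk0⟩ := haltT hT hint (MvPolynomial.aeval β W.a) (MvPolynomial.aeval β W.b)
  refine ⟨k0, ?_⟩
  intro k hk K _ _ _ z hdeg hz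
  have hch : CharZero K := charZero_of_injective_algebraMap (algebraMap K0 K).injective
  obtain ⟨L, Φ, hT⟩ := tra hW hA K (hpts K)
  have hw := fun i => lift_w (W := W) (hz i) (hdeg i)
  choose w hw1 hw2 hw3 using hw
  have hu := fun i => hT.let0 (w i) (hw2 i)
  choose u hu1 hu2 using hu
  obtain ⟨mul, hmul, hpr⟩ := exists_mul (pw (bc K W)) k
  obtain ⟨v, hv1', hv2⟩ := cmpV (bc K W) k
  have h1 := hT.push k _ (alt_mem (hk0 k hk K) u)
  rw [map_sum] at h1
  have h2 : ∀ σ : Equiv.Perm (Fin k), Φ k ((Equiv.Perm.sign σ : ℤ) • prodM (fun i => u (σ i))) =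
      (Equiv.Perm.sign σ : ℤ) • mul (fun i => L (u (σ i))) := by
    intro σ
    rw [map_zsmul, hT.mul k mul hpr]
  rw [Finset.sum_congr rfl fun σ _ => h2 σ] at h1
  have h3 : ∑ σ : Equiv.Perm (Fin k), (Equiv.Perm.sign σ : ℤ) • mul (fun i => w (σ i)) -
      ∑ σ : Equiv.Perm (Fin k), (Equiv.Perm.sign σ : ℤ) • mul (fun i => L (u (σ i))) ∈ tor (RatEq (pw (bc K W)) k) := by
    rw [← Finset.sum_sub_distrib]
    refine AddSubgroup.sum_mem _ fun σ _ => ?_
    rw [← smul_sub]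
    exact AddSubgroup.zsmul_mem _ (mul_con hpr (fun i => w (σ i)) (fun i => L (u (σ i))) fun i => hu1 (σ i)) _
  have h4 := AddSubgroup.add_mem _ h3 h1
  rw [sub_add_cancel] at h4
  have h5 := hv1' _ h4
  have h6 : v (∑ σ : Equiv.Perm (Fin k), (Equiv.Perm.sign σ : ℤ) • mul (fun i => w (σ i))) = altX z := by
    rw [map_sum]
    unfold altX
    refine Finset.sum_congr rfl fun σ _ => ?_
    rw [map_zsmul, hmul, hv2 (fun i => z (σ i)) (fun i => w (σ i)) fun i => hw1 (σ i)]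
  rw [h6] at h5
  exact h5

end H77.PB
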