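import Mathlib

/-! # PB.LiftI : homomorphisms to an algebraically closed field extend to integral extensions (MATHLIB only, about 60 lines)

`p = ker g` is a prime of `S`.  `Ideal.exists_ideal_over_prime_of_isIntegral_of_isDomain`-type lemma (injective integral extension; `Ideal.exists_ideal_over_prime_of_isIntegral` with `P = ⊥`): a prime `q` of `E` with `q.comap (algebraMap S E) = p`.  `S ⧸ p → K` is injective (`RingHom.kerLift`), `E ⧸ q` is a
domain, integral over `S ⧸ p` and `S ⧸ p → E ⧸ q` is injective.  Extend to `E ⧸ q → K`: e.g. `IsAlgClosed.lift` for `S' = E ⧸ q` over `R' = S ⧸ p` and `K` as an `R'`-algebra (torsion-free because `S ⧸ p → K` is injective). -/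

namespace H77.PB

/-- the case of domains -/
private theorem lift_dom {R T K : Type} [CommRing R] [IsDomain R] [CommRing T] [IsDomain T] [Field K] [IsAlgClosed K]
    (i : R →+* T) (hi : Function.Injective i) (hint : i.IsIntegral) (g : R →+* K) (hg : Function.Injective g) :
    ∃ h : T →+* K, h.comp i = g := by
  let : Algebra R T := i.toAlgebra
  let : Algebra R K := g.toAlgebra
  have : Algebra.IsIntegral R T := ⟨hint⟩
  have : FaithfulSMul R T := (faithfulSMul_iff_algebraMap_injective R T).2 hi
  have : FaithfulSMul R K := (faithfulSMul_iff_algebraMap_injective R K).2 hg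
  have : Module.IsTorsionFree R T := inferInstance
  have : Module.IsTorsionFree R K := inferInstance
  let f : T →ₐ[R] K := IsAlgClosed.lift
  exact ⟨f.toRingHom, f.comp_algebraMap⟩

theorem lift_int {S E K : Type} [CommRing S] [CommRing E] [Algebra S E] [Algebra.IsIntegral S E]
    (hinj : Function.Injective (algebraMap S E)) [Field K] [IsAlgClosed K] (g : S →+* K) :
    ∃ h : E →+* K, h.comp (algebraMap S E) = g := by
  have : (RingHom.ker g).IsPrime := RingHom.ker_isPrime g
  obtain ⟨q, -, hq, hqp⟩ := Ideal.exists_ideal_over_prime_of_isIntegral (S := E) (RingHom.ker g) ⊥ (by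
    rw [← RingHom.ker_eq_comap_bot, (RingHom.injective_iff_ker_eq_bot _).1 hinj]
    exact bot_le)
  let i : S ⧸ RingHom.ker g →+* E ⧸ q := Ideal.quotientMap q (algebraMap S E) (le_of_eq hqp.symm)
  have hi : Function.Injective i := Ideal.quotientMap_injective' (le_of_eq hqp)
  have hint : i.IsIntegral := by
    have h1 : ((Ideal.Quotient.mk q).comp (algebraMap S E)).IsIntegral :=
      (algebraMap_isIntegral_iff.2 inferInstance).trans _ _ (RingHom.isIntegral_of_surjective _ Ideal.Quotient.mk_surjective)
    intro x
    obtain ⟨P, hP, hPx⟩ := h1 x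
    refine ⟨P.map (Ideal.Quotient.mk _), hP.map _, ?_⟩
    rw [Polynomial.eval₂_map]
    exact hPx
  obtain ⟨h, hh⟩ := lift_dom i hi hint (RingHom.kerLift g) (RingHom.kerLift_injective g)
  refine ⟨h.comp (Ideal.Quotient.mk q), ?_⟩
  ext s
  have h2 := congrArg (fun φ : S ⧸ RingHom.ker g →+* K => φ (Ideal.Quotient.mk _ s)) hh
  exact h2

end H77.PB
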