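import Pool.Agent.H77.PB.Def
import Pool.Agent.H77.AF.Mult

/-! # PB.Cmp2 : from the point data to the explicit form of rational equivalence, as a homomorphism -/

namespace H77.PB

open H68.BB H77.AF

variable {K : Type} [Field K] {s : ℕ}

theorem prodX_apply {X : Type} {M : ℕ} (z : Fin M → (X →₀ ℤ)) (g : Fin M → X) : prodX z g = ∏ i, z i (g i) := by
  classical
  unfold prodX
  rw [Finsupp.finset_sum_apply]
  by_cases hg : g ∈ Fintype.piFinset (fun i => (z i).support)
  · rw [Finset.sum_eq_single g]
    · rw [Finsupp.single_eq_same]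
    · intro f _ hf
      rw [Finsupp.single_apply, if_neg hf]
    · intro h
      exact absurd hg h
  · rw [Finset.sum_eq_zero]
    · rw [Fintype.mem_piFinset] at hg
      push Not at hg
      obtain ⟨i, hi⟩ := hg
      rw [Finsupp.notMem_support_iff] at hi
      exact (Finset.prod_eq_zero (Finset.mem_univ i) hi).symm
    · intro f hf
      rw [Finsupp.single_apply, if_neg]
      rintro rfl
      exact hg hf

private theorem c2_fib {W : ES.Wm K s} {M : ℕ} {π : Place K (Om K)} {S : Multiset (Fin M → (pw W).Y)}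
    {c : Multiset (Fin M → (pw W).X)} (h : Fibre (D := pw W) π S c) :
    Multiset.Rel (ES.SpT W π) (S.map (fun P i => (P i).1)) (c.map (fun P i => (P i).1)) := by
  obtain ⟨S1, S2, hS, hR, hoff⟩ := h
  have h2 : S2 = 0 := by
    apply Multiset.eq_zero_of_forall_notMem
    intro P hP
    obtain ⟨i, hi⟩ := hoff P hP
    exact hi
  rw [hS, h2, add_zero, Multiset.rel_map]
  exact hR.mono fun P _ p _ hPp i => hPp i

private theorem c2_cyc {W : ES.Wm K s} {M : ℕ} (c : Multiset (Fin M → (pw W).X)) :
    Finsupp.mapDomain.addMonoidHom (fun (P : Fin M → (pw W).X) i => (P i).1) (cyc (D := pw W) c) =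
      (ES.cyc (c.map (fun P i => (P i).1)) : ES.Cyc M s K) := by
  unfold cyc ES.cyc
  rw [map_multiset_sum, Multiset.map_map, Multiset.map_map]
  congr 1
  refine Multiset.map_congr rfl fun P _ => ?_
  rw [Function.comp_apply, Function.comp_apply, Finsupp.mapDomain.addMonoidHom_apply, Finsupp.mapDomain_single]
  rfl

theorem cmpV (W : ES.Wm K s) (M : ℕ) : ∃ v : Cyc (pw W) M →+ ES.Cyc M s K,
    (∀ x ∈ tor (RatEq (pw W) M), ∃ N : ℕ, 0 < N ∧ N • v x ∈ ES.RatEq M W) ∧
    ∀ (z : Fin M → (ES.Pt s K →₀ ℤ)) (w : Fin M → Cyc1 (pw W)), (∀ i, Finsupp.mapDomain Subtype.val (w i) = z i) →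
      v (prodM w) = prodX z := by
  classical
  have key : ∀ x ∈ RatEq (pw W) M,
      Finsupp.mapDomain.addMonoidHom (fun (P : Fin M → (pw W).X) i => (P i).1) x ∈ ES.RatEq M W := by
    intro x hx
    unfold H77.AF.RatEq at hx
    induction hx using AddSubgroup.closure_induction with
    | mem x hx =>
      obtain ⟨S, π, π', c, c', hG, hF, hF', rfl⟩ := hx
      rw [map_sub, c2_cyc, c2_cyc]
      apply AddSubgroup.subset_closure
      refine ⟨S.map (fun P i => (P i).1), π, π', _, _, ?_, ?_, c2_fib hF, c2_fib hF', rfl⟩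
      · intro P hP i
        obtain ⟨Q, _, rfl⟩ := Multiset.mem_map.1 hP
        exact (Q i).2
      · intro σ
        rw [Multiset.map_map]
        have h1 := congrArg (Multiset.map (fun (P : Fin M → (pw W).Y) i => (P i).1)) (hG σ)
        rw [Multiset.map_map] at h1
        exact h1
    | zero => rw [map_zero]; exact AddSubgroup.zero_mem _
    | add x y _ _ hx hy => rw [map_add]; exact AddSubgroup.add_mem _ hx hy
    | neg x _ hx => rw [map_neg]; exact AddSubgroup.neg_mem _ hx
  refine ⟨Finsupp.mapDomain.addMonoidHom (fun (P : Fin M → (pw W).X) i => (P i).1), ?_, ?_⟩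
  · rintro x ⟨N, hN, hx⟩
    refine ⟨N, hN, ?_⟩
    rw [← map_nsmul]
    exact key _ hx
  · intro z w hw
    have hinj : Function.Injective (fun (P : Fin M → (pw W).X) i => (P i).1) := fun P Q h =>
      funext fun i => Subtype.ext (congrFun h i)
    rw [Finsupp.mapDomain.addMonoidHom_apply]
    ext g
    rw [prodX_apply]
    by_cases hg : ∃ P : Fin M → (pw W).X, (fun i => (P i).1) = g
    · obtain ⟨P, rfl⟩ := hg
      have h1 := Finsupp.mapDomain_apply hinj (prodM w) P
      refine h1.trans ?_
      rw [prodM_apply]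
      refine Finset.prod_congr rfl fun i _ => ?_
      rw [← hw i]
      exact (Finsupp.mapDomain_apply Subtype.val_injective (w i) (P i)).symm
    · rw [Finsupp.mapDomain_of_notMem_range]
      · have h1 : ∃ i, ¬ ES.OnW W (g i) := by
          by_contra h2
          push Not at h2
          exact hg ⟨fun i => ⟨g i, h2 i⟩, rfl⟩
        obtain ⟨i, hi⟩ := h1
        refine (Finset.prod_eq_zero (Finset.mem_univ i) ?_).symm
        rw [← hw i, Finsupp.mapDomain_of_notMem_range]
        rintro ⟨Q, hQ⟩
        exact hi (hQ ▸ Q.2)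
      · rintro ⟨P, hP⟩
        exact hg ⟨P, hP⟩

end H77.PB
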