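import Pool.Agent.H34.ES.Fib
import Pool.Agent.H77.AF.Surf

/-! # PB.Def : elliptic surfaces over arbitrary base curves, projective form (definitions and trivial facts, no sorry)

`W : y^2 = x^3 - 3 a x - 2 b` over an integral projective curve `B ⊂ ℙ(v)` over `K0`; `bc K W` is the same surface over a field `K ⊇ K0`.
`pw W` is the point data (`H77.AF.PD`) of `W`: every point specialises at every place. -/

namespace H77.PB

open H68.BB H77.AF

variable {K0 : Type} [Field K0] {s : ℕ}

/-- the homogeneous coordinate ring of the base -/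
abbrev BR (W : ES.Wm K0 s) : Type := MvPolynomial (Fin s) K0 ⧸ Ideal.span W.I

/-- the base `B ⊂ ℙ(v)` is an integral curve: its homogeneous coordinate ring is a domain of transcendence degree two -/
structure Curve (W : ES.Wm K0 s) : Prop where
  prime : (Ideal.span W.I).IsPrime
  dim : Algebra.trdeg K0 (BR W) = 2

/-- the same surface over an extension field -/
noncomputable def bc (K : Type) [Field K] [Algebra K0 K] (W : ES.Wm K0 s) : ES.Wm K s where
  v := W.v
  n := W.n
  I := MvPolynomial.map (algebraMap K0 K) '' W.I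
  a := MvPolynomial.map (algebraMap K0 K) W.a
  b := MvPolynomial.map (algebraMap K0 K) W.b

/-- the value of a polynomial in the coordinates `(β, x, y)` at a point -/
noncomputable def evG {F : Type} [Field F] [Algebra K0 F] (G : MvPolynomial (Fin s ⊕ Fin 2) K0) (P : ES.Pt s F) : F :=
  MvPolynomial.aeval (Sum.elim P.β ![P.x, P.y]) G

/-- the weights of the coordinates `(β, x, y)` -/
def wtG (W : ES.Wm K0 s) : Fin s ⊕ Fin 2 → ℕ := Sum.elim W.v ![2 * W.n, 3 * W.n]

open Classical in
/-- the exterior product `z 0 × z 1 × ... × z (M - 1)` : the coefficient at the tuple `f` is the product of the coefficients of `z i`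
at `f i` -/
noncomputable def prodX {X : Type} {M : ℕ} (z : Fin M → (X →₀ ℤ)) : (Fin M → X) →₀ ℤ :=
  ∑ f ∈ Fintype.piFinset (fun i => (z i).support), Finsupp.single f (∏ i, z i (f i))

section bc
variable {K : Type} [Field K] [Algebra K0 K]

theorem bc_ev {F : Type} [Field F] [Algebra K0 F] [Algebra K F] [IsScalarTower K0 K F] (f : MvPolynomial (Fin s) K0)
    (β : Fin s → F) : ES.ev (MvPolynomial.map (algebraMap K0 K) f) β = ES.ev f β := by
  unfold ES.ev
  rw [MvPolynomial.aeval_map_algebraMap]

theorem bc_dd {F : Type} [Field F] [Algebra K0 F] [Algebra K F] [IsScalarTower K0 K F] (W : ES.Wm K0 s)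
    (β : Fin s → F) : ES.dd (bc K W) β = ES.dd W β := by
  unfold ES.dd bc
  rw [bc_ev, bc_ev]

theorem bc_on {F : Type} [Field F] [Algebra K0 F] [Algebra K F] [IsScalarTower K0 K F] {W : ES.Wm K0 s} {P : ES.Pt s F} :
    ES.OnW (bc K W) P ↔ ES.OnW W P := by
  unfold ES.OnW
  refine and_congr_right fun _ => and_congr ?_ ?_
  · constructor
    · intro h f hf
      have := h _ ⟨f, hf, rfl⟩
      rwa [bc_ev] at this
    · rintro h _ ⟨f, hf, rfl⟩
      rw [bc_ev]
      exact h f hf
  · unfold bc
    rw [bc_ev, bc_ev]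

theorem map_hom {v : Fin s → ℕ} {f : MvPolynomial (Fin s) K0} {m : ℕ} (h : MvPolynomial.IsWeightedHomogeneous v f m) :
    MvPolynomial.IsWeightedHomogeneous v (MvPolynomial.map (algebraMap K0 K) f) m := by
  intro d hd
  exact h fun h0 => hd (by rw [MvPolynomial.coeff_map, h0, map_zero])

theorem bc_ok {W : ES.Wm K0 s} (hW : W.Ok) : (bc K W).Ok where
  v := hW.v
  n := hW.n
  I := by
    rintro _ ⟨f, hf, rfl⟩
    obtain ⟨m, hm, h⟩ := hW.I f hf
    exact ⟨m, hm, map_hom h⟩
  a := map_hom hW.a
  b := map_hom hW.b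

end bc

section pw
variable {K : Type} [Field K]

/-- the point data of the projective surface `W` -/
noncomputable def pw (W : ES.Wm K s) : PD K where
  X := {P : ES.Pt s K // ES.OnW W P}
  Y := {P : ES.Pt s (Om K) // ES.OnW W P}
  act σ P := ⟨P.1.map σ, by
    have hinj := σ.injective
    refine ⟨?_, ?_, ?_⟩
    · rcases P.2.1 with h | h | h
      · left
        intro h1
        apply h
        funext i
        exact (map_eq_zero_iff σ hinj).1 (congrFun h1 i)
      · exact Or.inr (Or.inl ((map_ne_zero_iff σ hinj).2 h))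
      · exact Or.inr (Or.inr ((map_ne_zero_iff σ hinj).2 h))
    · intro f hf
      change ES.ev f (fun i => σ (P.1.β i)) = 0
      rw [← ES.sigma_ev, P.2.2.1 f hf, map_zero]
    · change (σ P.1.y) ^ 2 = (σ P.1.x) ^ 3 - 3 * ES.ev W.a (fun i => σ (P.1.β i)) * σ P.1.x -
        2 * ES.ev W.b (fun i => σ (P.1.β i))
      rw [← ES.sigma_ev, ← ES.sigma_ev, ← map_pow, P.2.2.2]
      simp only [map_sub, map_mul, map_pow, map_ofNat]⟩
  sp π P p := ES.Sp W π P.1 p.1
  off _ _ := False
  cst p := ⟨p.1.map (algebraMap K (Om K)), ES.OnW_cst p.2⟩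
  act_cst := fun σ p => Subtype.ext (ES.map_cst σ p.1)
  sp_cst := fun π p => ES.Sp_cst π p.2.1

end pw

/-- the point `(φ(β), x, y)` of `W` given by a point of the affine surface -/
def tw {A F : Type} [CommRing A] [Algebra K0 A] [Field F] [Algebra K0 F] {a b : A} (β : Fin s → A) (P : SP K0 A F a b) :
    ES.Pt s F := ⟨fun i => P.φ (β i), P.x, P.y⟩

/-- the data: an affine curve `Spec A` with `β : Fin s → A` which generate `A`, satisfy the equations of the base and `b^2 - a^3 = 1` -/
structure Cov (W : ES.Wm K0 s) (A : Type) [CommRing A] [Algebra K0 A] (β : Fin s → A) : Prop where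
  gen : Algebra.adjoin K0 (Set.range β) = ⊤
  eqs : ∀ f ∈ W.I, MvPolynomial.aeval β f = 0
  disc : (MvPolynomial.aeval β W.b) ^ 2 - (MvPolynomial.aeval β W.a) ^ 3 = 1

end H77.PB
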