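import Pool.Agent.H77.PB.Def

/-! # PB.Fib : points of singular fibres are equivalent to the point `o`

Let `o' : (pw W).X` be the point `⟨ES.o s K, ES.OnW_o hW K⟩`.  A point `T` of the surface over `Ω` which is fixed by the automorphisms and specialises to `P` and to `Q` gives `P ~ Q` (`one_rel`).
SCALARS: `T = cst P`.  SINGULAR FIBRES (`dd = 0`, also `β = 0`): the parametrisation `ES.sing_param` of the singular cubic, see the proof of `ES.sl_sing` in `Pool/Agent/H34/ES/Fib.lean`. -/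

namespace H77.PB

open H68.BB H77.AF
open H67.KH (rd_cst sigma_cst sigma_tt)

variable {K : Type} [Field K] [IsAlgClosed K] [CharZero K] {s : ℕ} {W : ES.Wm K s}

omit [IsAlgClosed K] [CharZero K] in
/-- two specialisations of a fixed point over `Ω` -/
private theorem one_rel {T : (pw W).Y} (hσ : ∀ σ, (pw W).act σ T = T) {π π' : Place K (Om K)} {P Q : (pw W).X}
    (h : (pw W).sp π T P) (h' : (pw W).sp π' T Q) :
    (Finsupp.single (fun _ => P) 1 - Finsupp.single (fun _ => Q) 1 : Cyc (pw W) 1) ∈ RatEq (pw W) 1 := by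
  refine AddSubgroup.subset_closure ⟨{fun _ => T}, π, π', {fun _ => P}, {fun _ => Q}, ?_, ?_, ?_, ?_⟩
  · intro σ
    rw [Multiset.map_singleton]
    congr 1
    funext i
    exact hσ σ
  · exact ⟨{fun _ => T}, 0, by rw [add_zero], Multiset.Rel.cons (fun _ => h) Multiset.Rel.zero,
      fun P hP => absurd hP (Multiset.notMem_zero P)⟩
  · exact ⟨{fun _ => T}, 0, by rw [add_zero], Multiset.Rel.cons (fun _ => h') Multiset.Rel.zero,
      fun P hP => absurd hP (Multiset.notMem_zero P)⟩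
  · unfold cyc
    rw [Multiset.map_singleton, Multiset.map_singleton, Multiset.sum_singleton, Multiset.sum_singleton]

theorem scal (P : (pw W).X) {c : K} (hc : c ≠ 0) (Q : (pw W).X) (hQ : Q.1 = P.1.smul W c) :
    (Finsupp.single (fun _ => Q) 1 - Finsupp.single (fun _ => P) 1 : Cyc (pw W) 1) ∈ RatEq (pw W) 1 := by
  obtain ⟨π, -, -⟩ := place_exists K 0
  refine one_rel (T := (pw W).cst P) (π := π) (π' := π) (fun σ => (pw W).act_cst σ P) ?_ ((pw W).sp_cst π P)
  change ES.Sp W π (P.1.map (algebraMap K (Om K))) Q.1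
  rw [hQ]
  exact ES.Sp_smul (ES.Sp_cst π P.2.1) hc

/-- a point of a singular fibre and the zero section -/
private theorem sing_o (hW : W.Ok) (P : (pw W).X) (hP : ES.dd W P.1.β = 0) :
    (Finsupp.single (fun _ => P) 1 - Finsupp.single (fun _ => (⟨ES.o s K, ES.OnW_o hW K⟩ : (pw W).X)) 1 :
      Cyc (pw W) 1) ∈ RatEq (pw W) 1 := by
  obtain ⟨r, m, hA, hB, hx, hy⟩ := ES.sing_param hP P.2.2.2
  obtain ⟨π1, π0, r1, n0, r0, -⟩ := ES.two_places K
  set cs : K →+* Om K := algebraMap K (Om K) with hcs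
  set R := cs r with hR
  set M := cs m - 1 + (tt K)⁻¹ with hM
  have hMV : M ∉ π0.V := by
    intro h
    apply n0
    have e : (tt K)⁻¹ = M - (cs m - 1) := by rw [hM]; ring
    rw [e]
    exact sub_mem h (sub_mem (rd_cst π0 m).mem π0.V.one_mem)
  have hXV : M ^ 2 - 2 * R ∉ π0.V := by
    intro h
    apply hMV
    refine ES.mem_of_pow (n := 2) (by norm_num) ?_
    have e : M ^ 2 = (M ^ 2 - 2 * R) + 2 * R := by ring
    rw [e]
    exact add_mem h (mul_mem (Rd.two (φ := π0.φ)).mem (rd_cst π0 r).mem)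
  have hX0 : M ^ 2 - 2 * R ≠ 0 := by
    intro h
    exact hXV (by rw [h]; exact π0.V.zero_mem)
  set T : ES.Pt s (Om K) := ⟨fun i => cs (P.1.β i), M ^ 2 - 2 * R, M * (M ^ 2 - 3 * R)⟩ with hT
  have hon : ES.OnW W T := by
    refine ⟨Or.inr (Or.inl hX0), ?_, ?_⟩
    · intro g hg
      show ES.ev g (fun i => cs (P.1.β i)) = 0
      rw [ES.ev_cst, P.2.2.1 g hg, map_zero]
    · show (M * (M ^ 2 - 3 * R)) ^ 2 = (M ^ 2 - 2 * R) ^ 3 - 3 * ES.ev W.a (fun i => cs (P.1.β i)) * (M ^ 2 - 2 * R) -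
        2 * ES.ev W.b (fun i => cs (P.1.β i))
      rw [ES.ev_cst, ES.ev_cst, hA, hB]
      simp only [map_neg, map_pow]
      ring
  have hM1 : Rd π1.V π1.φ M m := by
    have h := ((rd_cst π1 m).sub Rd.one).add r1
    have e : m - 1 + 1 = m := by ring
    rwa [e] at h
  have hR1 : Rd π1.V π1.φ R r := rd_cst π1 r
  refine one_rel (T := ⟨T, hon⟩) (π := π1) (π' := π0) ?_ ?_ ?_
  · intro σ
    have e1 : ∀ c : K, σ (cs c) = cs c := fun c => sigma_cst σ c
    have hσM : σ M = M := by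
      rw [hM, map_add, map_sub, map_one, map_inv₀, sigma_tt, e1]
    have hσR : σ R = R := e1 r
    apply Subtype.ext
    change T.map σ = T
    simp only [hT, ES.Pt.map, map_sub, map_mul, map_pow, map_ofNat, hσM, hσR, e1]
  · change ES.Sp W π1 T P.1
    refine ES.Sp_fin P.2.1 (fun _ => rd_cst π1 _) ?_ ?_
    · rw [hx]
      exact (hM1.pow 2).sub (Rd.two.mul hR1)
    · rw [hy]
      exact hM1.mul ((hM1.pow 2).sub (Rd.three.mul hR1))
  · exact ES.Sp_inf hW hon (fun _ => (rd_cst π0 _).mem) hXV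

theorem sing (hW : W.Ok) (P Q : (pw W).X) (hP : ES.dd W P.1.β = 0) (hQ : Q.1.β = 0) :
    (Finsupp.single (fun _ => P) 1 - Finsupp.single (fun _ => Q) 1 : Cyc (pw W) 1) ∈ RatEq (pw W) 1 := by
  have hn := hW.n
  have h1 := sing_o hW P hP
  have h2 := sing_o hW Q (by
    unfold ES.dd
    rw [hQ, ES.ev_zero hW.a (by omega), ES.ev_zero hW.b (by omega)]
    ring)
  have h3 := (RatEq (pw W) 1).sub_mem h1 h2
  convert h3 using 1
  exact (sub_sub_sub_cancel_right _ _ _).symm

end H77.PB
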