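import Pool.Agent.H77.PB.Def

/-! # PB.Gr : the grading of the homogeneous coordinate ring of the base (about 80 lines)

`τ0 = MvPolynomial.aeval (fun i => C (mk X_i) * X ^ v i) : MvPolynomial (Fin s) K0 →ₐ[K0] (BR W)[X]`, `mk = Ideal.Quotient.mk (Ideal.span W.I)`.  For `f` weighted homogeneous of degree `m`: `τ0 f = C (mk f) * X ^ m` (sum over the support as in the proof of `ES.ev_scale` in `Pool/Agent/H34/ES/Spc.lean`:
`MvPolynomial.aeval_def`, `eval₂_eq'`, `∏ (C r_i * X ^ v_i) ^ d_i = C (∏ r_i ^ d_i) * X ^ m`; and `mk f = ∑ ..` by the same formula, e.g. `MvPolynomial.as_sum` or `aeval (fun i => mk X_i) f = mk f`).  So `τ0` kills `W.I` (`hW.I`), hence the ideal: `Ideal.Quotient.liftₐ`.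
Injective: the composite with `Polynomial.eval 1` (`Polynomial.evalRingHom 1`) is the identity (check on the generators: `Ideal.Quotient.algHom_ext`, `MvPolynomial.algHom_ext`). -/

namespace H77.PB

open Polynomial

variable {K0 : Type} [Field K0] {s : ℕ} {W : ES.Wm K0 s}

private theorem gr_h {R : Type} [CommRing R] [Algebra K0 R] {v : Fin s → ℕ} {f : MvPolynomial (Fin s) K0} {m : ℕ}
    (hf : MvPolynomial.IsWeightedHomogeneous v f m) (β : Fin s → R) :
    MvPolynomial.aeval (fun i => C (β i) * (X : R[X]) ^ v i) f = C (MvPolynomial.aeval β f) * X ^ m := by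
  have h0 : (C (MvPolynomial.aeval β f) : R[X]) = MvPolynomial.aeval (fun i => (C (β i) : R[X])) f :=
    (MvPolynomial.aeval_algebraMap_apply R[X] β f).symm
  rw [h0, MvPolynomial.aeval_def, MvPolynomial.aeval_def, MvPolynomial.eval₂_eq', MvPolynomial.eval₂_eq',
    Finset.sum_mul]
  refine Finset.sum_congr rfl fun d hd => ?_
  have h1 : ∏ i, ((X : R[X]) ^ v i) ^ d i = X ^ m := by
    have h2 := hf (MvPolynomial.mem_support_iff.1 hd)
    rw [← h2, Finsupp.weight_apply, Finsupp.sum_fintype _ _ (fun i => by simp), ← Finset.prod_pow_eq_pow_sum]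
    refine Finset.prod_congr rfl fun i _ => ?_
    rw [← pow_mul, smul_eq_mul, mul_comm]
  simp only [mul_pow, Finset.prod_mul_distrib]
  rw [h1]
  ring

private theorem gr_mk (f : MvPolynomial (Fin s) K0) :
    MvPolynomial.aeval (fun i => Ideal.Quotient.mk (Ideal.span W.I) (MvPolynomial.X i)) f =
      Ideal.Quotient.mk (Ideal.span W.I) f := by
  have h : (MvPolynomial.aeval (fun i => Ideal.Quotient.mk (Ideal.span W.I) (MvPolynomial.X i)) :
      MvPolynomial (Fin s) K0 →ₐ[K0] BR W) = Ideal.Quotient.mkₐ K0 (Ideal.span W.I) := by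
    refine MvPolynomial.algHom_ext fun i => ?_
    rw [MvPolynomial.aeval_X, Ideal.Quotient.mkₐ_eq_mk]
  rw [h, Ideal.Quotient.mkₐ_eq_mk]

private noncomputable def gr0 (W : ES.Wm K0 s) : MvPolynomial (Fin s) K0 →ₐ[K0] (BR W)[X] :=
  MvPolynomial.aeval fun i => C (Ideal.Quotient.mk (Ideal.span W.I) (MvPolynomial.X i)) * X ^ W.v i

private theorem gr0_hom {f : MvPolynomial (Fin s) K0} {m : ℕ} (hf : MvPolynomial.IsWeightedHomogeneous W.v f m) :
    gr0 W f = C (Ideal.Quotient.mk (Ideal.span W.I) f) * X ^ m := by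
  unfold gr0
  rw [gr_h hf, gr_mk]

private theorem gr0_ker (hW : W.Ok) (f : MvPolynomial (Fin s) K0) (hf : f ∈ Ideal.span W.I) : gr0 W f = 0 := by
  have h : Ideal.span W.I ≤ RingHom.ker (gr0 W).toRingHom := by
    rw [Ideal.span_le]
    intro g hg
    obtain ⟨m, -, hm⟩ := hW.I g hg
    change gr0 W g = 0
    rw [gr0_hom hm, Ideal.Quotient.eq_zero_iff_mem.2 (Ideal.subset_span hg), map_zero, zero_mul]
  exact h hf

theorem gr (hW : W.Ok) : ∃ τ : BR W →ₐ[K0] (BR W)[X], Function.Injective τ ∧ ∀ (f : MvPolynomial (Fin s) K0) (m : ℕ),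
    MvPolynomial.IsWeightedHomogeneous W.v f m →
      τ (Ideal.Quotient.mk (Ideal.span W.I) f) = C (Ideal.Quotient.mk (Ideal.span W.I) f) * X ^ m := by
  refine ⟨Ideal.Quotient.liftₐ (Ideal.span W.I) (gr0 W) (gr0_ker hW), ?_, ?_⟩
  · have h : ((Polynomial.aeval (1 : BR W)).restrictScalars K0).comp
        (Ideal.Quotient.liftₐ (Ideal.span W.I) (gr0 W) (gr0_ker hW)) = AlgHom.id K0 (BR W) := by
      refine Ideal.Quotient.algHom_ext _ ?_
      refine MvPolynomial.algHom_ext fun i => ?_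
      change Polynomial.aeval (1 : BR W) (gr0 W (MvPolynomial.X i)) = Ideal.Quotient.mk (Ideal.span W.I) (MvPolynomial.X i)
      unfold gr0
      rw [MvPolynomial.aeval_X, map_mul, map_pow, Polynomial.aeval_X, one_pow, mul_one, Polynomial.aeval_C]
      rfl
    intro y z hyz
    have h1 := congrArg (fun g : BR W →ₐ[K0] BR W => g y) h
    have h2 := congrArg (fun g : BR W →ₐ[K0] BR W => g z) h
    simp only [AlgHom.comp_apply, AlgHom.id_apply] at h1 h2
    rw [← h1, ← h2, hyz]
  · intro f m hf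
    change gr0 W f = _
    exact gr0_hom hf

end H77.PB
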