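import Pool.Agent.H77.PB.Gr

/-! # PB.Trd : the base is a curve (about 250 lines, given `gr`)

`R = BR W` is a domain, `Q` a field containing it, `D = mk (b^2 - a^3) ≠ 0` (`hD`), homogeneous of degree `12 n > 0`, `x_i = mk X_i` homogeneous of degree `v i`, `u i = x_i ^ (12 n) / D ^ (v i) ∈ Q`.
(1) LEMMA: for `P : MvPolynomial (Fin 3) K0`, `P ≠ 0` and `i, j` with `aeval ![u i, u j, D] P = 0` there is `P' : MvPolynomial (Fin 2) K0`, `P' ≠ 0`, with `aeval ![u i, u j] P' = 0`; and for two: `P : MvPolynomial (Fin 2) K0`, `P ≠ 0`, `aeval ![u j, D] P = 0` gives `p : K0[X]`, `p ≠ 0`, `aeval (u j) p = 0`.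
Proof: write `P = ∑_k P_k(y_0, y_1) y_2^k`; multiply by a power `D^N` to get rid of denominators: `D^N (u i)^e (u j)^f D^k` is the image of a homogeneous element of `R` of degree `12 n (N + k)` (all have the same power `N`).  Apply `τ` (`gr`): `∑_k (D^N P_k(u i, u j) D^k) X^(12 n (N + k)) = 0`, so every
`P_k(u i, u j) = 0` (coefficients of a polynomial; or: extend `τ` to a homomorphism of fields `Frac R → RatFunc (Frac R)` with `u i ↦ u i`, `D ↦ D X^(12 n)`).  One `P_k ≠ 0`.
In other words: `D` is transcendental over the field `K0(u i, u j)`; state it as you like.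
(2) Some `x_j` is transcendental over `K0(D)` (otherwise all elements of `R` are algebraic over `K0(D)`, `trdeg K0 R ≤ 1`, contradiction to `hC.dim`: `Algebra.trdeg`, see the proof of `nn_trdeg` in `Pool/Agent/H25/DP/NN.lean`).  Then `u j` is transcendental over `K0`: otherwise `x_j ^ (12 n) = u j * D ^ (v j)` is algebraic over
`K0(D)`.
(3) For every `i`: `u i, u j, D` are algebraically dependent over `K0` (three elements in the fraction field of `R` of transcendence degree 2: `AlgebraicIndependent`, `Algebra.trdeg`, e.g. `AlgebraicIndependent.cardinalMk_le_trdeg`; the fraction field has the same `trdeg`, `IsFractionRing`, or clear denominators), so by (1) `u i`, `u j` are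
dependent; `u j` is transcendental, so `u i` is algebraic over `K0(u j)`. -/

namespace H77.PB

open Polynomial

variable {K0 : Type} [Field K0] {s : ℕ} {W : ES.Wm K0 s}

private theorem trd_hom (hW : W.Ok)
    {Q : Type} [Field Q] [Algebra K0 Q] [Algebra (BR W) Q] [IsScalarTower K0 (BR W) Q]
    (hD0 : algebraMap (BR W) Q (Ideal.Quotient.mk (Ideal.span W.I) (W.b ^ 2 - W.a ^ 3)) ≠ 0) (u : Fin s → Q)
    (hu : ∀ i, u i = algebraMap (BR W) Q (Ideal.Quotient.mk (Ideal.span W.I) (MvPolynomial.X i)) ^ (12 * W.n) /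
      algebraMap (BR W) Q (Ideal.Quotient.mk (Ideal.span W.I) (W.b ^ 2 - W.a ^ 3)) ^ W.v i)
    (q : MvPolynomial (Fin s) K0) :
    ∃ N0 : ℕ, ∀ N, N0 ≤ N → ∃ f : MvPolynomial (Fin s) K0, MvPolynomial.IsWeightedHomogeneous W.v f (12 * W.n * N) ∧
      algebraMap (BR W) Q (Ideal.Quotient.mk (Ideal.span W.I) (W.b ^ 2 - W.a ^ 3)) ^ N * MvPolynomial.aeval u q =
        algebraMap (BR W) Q (Ideal.Quotient.mk (Ideal.span W.I) f) := by
  have hDh : MvPolynomial.IsWeightedHomogeneous W.v (W.b ^ 2 - W.a ^ 3) (12 * W.n) := by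
    have hb := hW.b.pow 2
    have ha := hW.a.pow 3
    have e1 : 2 • (6 * W.n) = 12 * W.n := by simp only [smul_eq_mul]; ring
    have e2 : 3 • (4 * W.n) = 12 * W.n := by simp only [smul_eq_mul]; ring
    rw [e1] at hb
    rw [e2] at ha
    exact hb.sub ha
  induction q using MvPolynomial.induction_on with
  | C c =>
    refine ⟨0, fun N _ => ⟨MvPolynomial.C c * (W.b ^ 2 - W.a ^ 3) ^ N, ?_, ?_⟩⟩
    · have h1 := (MvPolynomial.isWeightedHomogeneous_C W.v c).mul (hDh.pow N)
      have e : 0 + N • (12 * W.n) = 12 * W.n * N := by simp only [smul_eq_mul]; ring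
      rw [e] at h1
      exact h1
    · rw [MvPolynomial.aeval_C, map_mul, map_mul, map_pow, map_pow, mul_comm]
      congr 1
      rw [IsScalarTower.algebraMap_apply K0 (BR W) Q]
      rfl
  | add p q hp hq =>
    obtain ⟨N1, h1⟩ := hp
    obtain ⟨N2, h2⟩ := hq
    refine ⟨max N1 N2, fun N hN => ?_⟩
    obtain ⟨f, hf, hf'⟩ := h1 N (le_trans (le_max_left _ _) hN)
    obtain ⟨g, hg, hg'⟩ := h2 N (le_trans (le_max_right _ _) hN)
    refine ⟨f + g, hf.add hg, ?_⟩
    rw [map_add, mul_add, hf', hg', map_add, map_add]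
  | mul_X p i hp =>
    obtain ⟨N1, h1⟩ := hp
    refine ⟨N1 + W.v i, fun N hN => ?_⟩
    obtain ⟨M, rfl⟩ : ∃ M, N = M + W.v i := ⟨N - W.v i, by omega⟩
    obtain ⟨f, hf, hf'⟩ := h1 M (by omega)
    refine ⟨f * MvPolynomial.X i ^ (12 * W.n), ?_, ?_⟩
    · have h2 := hf.mul ((MvPolynomial.isWeightedHomogeneous_X K0 W.v i).pow (12 * W.n))
      have e : 12 * W.n * M + (12 * W.n) • W.v i = 12 * W.n * (M + W.v i) := by simp only [smul_eq_mul]; ring
      rw [e] at h2
      exact h2
    · rw [map_mul, MvPolynomial.aeval_X, hu i, map_mul, map_mul, ← hf', map_pow, map_pow, pow_add]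
      field_simp

private theorem trd_c {R : Type} [CommRing R] (a b : R) (m e N k : ℕ) (h : m + e * k = N) :
    C a * X ^ m * (C b * X ^ e) ^ k = C (a * b ^ k) * (X : R[X]) ^ N := by
  subst h
  rw [mul_pow, ← pow_mul, map_mul, map_pow, pow_add]
  ring

private theorem trd_key (hW : W.Ok) (hC : Curve W) (hD : W.b ^ 2 - W.a ^ 3 ∉ Ideal.span W.I)
    {Q : Type} [Field Q] [Algebra K0 Q] [Algebra (BR W) Q] [IsScalarTower K0 (BR W) Q]
    (hinj : Function.Injective (algebraMap (BR W) Q)) (u : Fin s → Q)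
    (hu : ∀ i, u i = algebraMap (BR W) Q (Ideal.Quotient.mk (Ideal.span W.I) (MvPolynomial.X i)) ^ (12 * W.n) /
      algebraMap (BR W) Q (Ideal.Quotient.mk (Ideal.span W.I) (W.b ^ 2 - W.a ^ 3)) ^ W.v i)
    (p : ℕ → MvPolynomial (Fin s) K0) (M : ℕ)
    (hp : ∑ k ∈ Finset.range M, MvPolynomial.aeval u (p k) *
      algebraMap (BR W) Q (Ideal.Quotient.mk (Ideal.span W.I) (W.b ^ 2 - W.a ^ 3)) ^ k = 0) :
    ∀ k ∈ Finset.range M, MvPolynomial.aeval u (p k) = 0 := by
  have hdom : IsDomain (BR W) := by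
    have := hC.prime
    exact Ideal.Quotient.isDomain _
  set d : BR W := Ideal.Quotient.mk (Ideal.span W.I) (W.b ^ 2 - W.a ^ 3) with hd
  have hd0 : d ≠ 0 := fun h => hD (Ideal.Quotient.eq_zero_iff_mem.1 h)
  have hD0 : algebraMap (BR W) Q d ≠ 0 := (map_ne_zero_iff _ hinj).2 hd0
  have hDh : MvPolynomial.IsWeightedHomogeneous W.v (W.b ^ 2 - W.a ^ 3) (12 * W.n) := by
    have hb := hW.b.pow 2
    have ha := hW.a.pow 3
    have e1 : 2 • (6 * W.n) = 12 * W.n := by simp only [smul_eq_mul]; ring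
    have e2 : 3 • (4 * W.n) = 12 * W.n := by simp only [smul_eq_mul]; ring
    rw [e1] at hb
    rw [e2] at ha
    exact hb.sub ha
  have hdeg : 0 < 12 * W.n := Nat.mul_pos (by norm_num) hW.n
  choose N0 hN0 using fun k => trd_hom hW hD0 u hu (p k)
  set N := (Finset.range M).sup N0 with hN
  have h1 : ∀ k, ∃ f : MvPolynomial (Fin s) K0, MvPolynomial.IsWeightedHomogeneous W.v f (12 * W.n * N) ∧
      (k ∈ Finset.range M → algebraMap (BR W) Q d ^ N * MvPolynomial.aeval u (p k) =
        algebraMap (BR W) Q (Ideal.Quotient.mk (Ideal.span W.I) f)) := by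
    intro k
    by_cases hk : k ∈ Finset.range M
    · obtain ⟨f, hf, hf'⟩ := hN0 k N (Finset.le_sup (f := N0) hk)
      exact ⟨f, hf, fun _ => hf'⟩
    · exact ⟨0, MvPolynomial.isWeightedHomogeneous_zero _ _ _, fun h => absurd h hk⟩
  choose f hf hf' using h1
  obtain ⟨τ, hτ, hτh⟩ := gr hW
  have h2 : ∑ k ∈ Finset.range M, Ideal.Quotient.mk (Ideal.span W.I) (f k) * d ^ k = 0 := by
    apply hinj
    rw [map_sum, map_zero]
    have h3 : ∀ k ∈ Finset.range M, algebraMap (BR W) Q (Ideal.Quotient.mk (Ideal.span W.I) (f k) * d ^ k) =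
        algebraMap (BR W) Q d ^ N * (MvPolynomial.aeval u (p k) * algebraMap (BR W) Q d ^ k) := by
      intro k hk
      rw [map_mul, map_pow, ← hf' k hk, mul_assoc]
    rw [Finset.sum_congr rfl h3, ← Finset.mul_sum, hp, mul_zero]
  have h4 := congrArg τ h2
  rw [map_sum, map_zero] at h4
  have h5 : ∀ k ∈ Finset.range M, τ (Ideal.Quotient.mk (Ideal.span W.I) (f k) * d ^ k) =
      C (Ideal.Quotient.mk (Ideal.span W.I) (f k) * d ^ k) * X ^ (12 * W.n * (N + k)) := by
    intro k _
    rw [map_mul, map_pow, hτh _ _ (hf k), hd, hτh _ _ hDh]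
    exact trd_c _ _ _ _ _ _ (by ring)
  rw [Finset.sum_congr rfl h5] at h4
  intro k hk
  have h6 := congrArg (fun g : (BR W)[X] => g.coeff (12 * W.n * (N + k))) h4
  simp only [Polynomial.finsetSum_coeff, Polynomial.coeff_C_mul_X_pow, Polynomial.coeff_zero] at h6
  rw [Finset.sum_eq_single k] at h6
  · rw [if_pos rfl] at h6
    have h7 : Ideal.Quotient.mk (Ideal.span W.I) (f k) = 0 := (mul_eq_zero.1 h6).resolve_right (pow_ne_zero _ hd0)
    have h8 := hf' k hk
    rw [h7, map_zero] at h8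
    exact (mul_eq_zero.1 h8).resolve_left (pow_ne_zero _ hD0)
  · intro j _ hj
    rw [if_neg]
    intro h
    apply hj
    have := Nat.eq_of_mul_eq_mul_left hdeg h
    omega
  · intro h
    exact absurd hk h

private theorem trd_D (hW : W.Ok) (hC : Curve W) (hD : W.b ^ 2 - W.a ^ 3 ∉ Ideal.span W.I)
    {Q : Type} [Field Q] [Algebra K0 Q] [Algebra (BR W) Q] [IsScalarTower K0 (BR W) Q]
    (hinj : Function.Injective (algebraMap (BR W) Q)) (u : Fin s → Q)
    (hu : ∀ i, u i = algebraMap (BR W) Q (Ideal.Quotient.mk (Ideal.span W.I) (MvPolynomial.X i)) ^ (12 * W.n) /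
      algebraMap (BR W) Q (Ideal.Quotient.mk (Ideal.span W.I) (W.b ^ 2 - W.a ^ 3)) ^ W.v i) :
    Transcendental (Algebra.adjoin K0 (Set.range u))
      (algebraMap (BR W) Q (Ideal.Quotient.mk (Ideal.span W.I) (W.b ^ 2 - W.a ^ 3))) := by
  rintro ⟨p, hp0, hp⟩
  have h1 : ∀ k, ∃ q : MvPolynomial (Fin s) K0, MvPolynomial.aeval u q = ((p.coeff k : Algebra.adjoin K0 (Set.range u)) : Q) := by
    intro k
    have h2 : ∀ x ∈ Algebra.adjoin K0 (Set.range u), ∃ q : MvPolynomial (Fin s) K0, MvPolynomial.aeval u q = x := by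
      intro x hx
      rw [Algebra.adjoin_range_eq_range_aeval] at hx
      exact hx
    exact h2 _ (p.coeff k).2
  choose q hq using h1
  rw [Polynomial.aeval_eq_sum_range] at hp
  have h3 : ∑ k ∈ Finset.range (p.natDegree + 1), MvPolynomial.aeval u (q k) *
      algebraMap (BR W) Q (Ideal.Quotient.mk (Ideal.span W.I) (W.b ^ 2 - W.a ^ 3)) ^ k = 0 := by
    rw [← hp]
    refine Finset.sum_congr rfl fun k _ => ?_
    rw [hq k]
    rfl
  have h4 := trd_key hW hC hD hinj u hu q (p.natDegree + 1) h3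
  apply hp0
  ext k
  rw [Polynomial.coeff_zero]
  by_cases hk : k ∈ Finset.range (p.natDegree + 1)
  · have h5 := h4 k hk
    rw [hq k] at h5
    rw [h5]
    rfl
  · rw [Polynomial.coeff_eq_zero_of_natDegree_lt (by
      rw [Finset.mem_range] at hk
      omega)]

private theorem trd_two (hC : Curve W)
    {Q : Type} [Field Q] [Algebra K0 Q] [Algebra (BR W) Q] [IsScalarTower K0 (BR W) Q]
    (hinj : Function.Injective (algebraMap (BR W) Q)) {ι : Type} (g : ι → Q) (hg : AlgebraicIndependent K0 g)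
    (hr : ∀ i, ∃ a b : BR W, g i = algebraMap (BR W) Q a / algebraMap (BR W) Q b) :
    Cardinal.mk ι ≤ 2 := by
  have hdom : IsDomain (BR W) := by
    have := hC.prime
    exact Ideal.Quotient.isDomain _
  have hfs : FaithfulSMul (BR W) Q := (faithfulSMul_iff_algebraMap_injective _ _).2 hinj
  let F := FractionRing (BR W)
  let φ : F →ₐ[BR W] Q := IsFractionRing.liftAlgHom (g := Algebra.ofId (BR W) Q) hinj
  let ψ : F →ₐ[K0] Q := φ.restrictScalars K0
  have h1 : ∀ i, ∃ x : F, ψ x = g i := by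
    intro i
    obtain ⟨a, b, h⟩ := hr i
    refine ⟨algebraMap (BR W) F a / algebraMap (BR W) F b, ?_⟩
    change φ _ = _
    rw [map_div₀, h, AlgHom.commutes, AlgHom.commutes]
  choose x hx using h1
  have h2 : AlgebraicIndependent K0 x := by
    have : (ψ ∘ x) = g := funext hx
    rw [← this] at hg
    exact hg.of_comp ψ
  have h3 := h2.cardinalMk_le_trdeg
  have h4 : Algebra.trdeg K0 (BR W) + Algebra.trdeg (BR W) F = Algebra.trdeg K0 F := trdeg_add_eq K0 (BR W)
  have h5' : Algebra.IsAlgebraic (BR W) F := IsLocalization.isAlgebraic (R := BR W) (S := F) (M := nonZeroDivisors (BR W))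
  have h5 : Algebra.trdeg (BR W) F = 0 := trdeg_eq_zero
  rw [h5, add_zero, hC.dim] at h4
  rw [← h4] at h3
  exact h3

private theorem trd_one (hW : W.Ok) (hC : Curve W) (hD : W.b ^ 2 - W.a ^ 3 ∉ Ideal.span W.I)
    {Q : Type} [Field Q] [Algebra K0 Q] [Algebra (BR W) Q] [IsScalarTower K0 (BR W) Q]
    (hinj : Function.Injective (algebraMap (BR W) Q)) (u : Fin s → Q)
    (hu : ∀ i, u i = algebraMap (BR W) Q (Ideal.Quotient.mk (Ideal.span W.I) (MvPolynomial.X i)) ^ (12 * W.n) /
      algebraMap (BR W) Q (Ideal.Quotient.mk (Ideal.span W.I) (W.b ^ 2 - W.a ^ 3)) ^ W.v i) :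
    ∃ j, Transcendental K0 (u j) := by
  by_contra hno
  push Not at hno
  have hdom : IsDomain (BR W) := by
    have := hC.prime
    exact Ideal.Quotient.isDomain _
  set d : BR W := Ideal.Quotient.mk (Ideal.span W.I) (W.b ^ 2 - W.a ^ 3) with hd
  have hd0 : d ≠ 0 := fun h => hD (Ideal.Quotient.eq_zero_iff_mem.1 h)
  have hD0 : algebraMap (BR W) Q d ≠ 0 := (map_ne_zero_iff _ hinj).2 hd0
  have hdeg : 0 < 12 * W.n := Nat.mul_pos (by norm_num) hW.n
  have hx : ∀ i, IsAlgebraic (Algebra.adjoin K0 ({d} : Set (BR W)))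
      (Ideal.Quotient.mk (Ideal.span W.I) (MvPolynomial.X i) : BR W) := by
    intro i
    refine IsAlgebraic.of_pow hdeg ?_
    have h0 : IsAlgebraic K0 (u i) := by
      have := hno i
      rwa [Transcendental, not_not] at this
    have h1 : IsAlgebraic (Algebra.adjoin K0 ({d} : Set (BR W))) (u i) :=
      h0.extendScalars (algebraMap K0 (Algebra.adjoin K0 ({d} : Set (BR W)))).injective
    have h2 : IsAlgebraic (Algebra.adjoin K0 ({d} : Set (BR W))) (algebraMap (BR W) Q d) :=
      isAlgebraic_algebraMap (⟨d, Algebra.subset_adjoin rfl⟩ : Algebra.adjoin K0 ({d} : Set (BR W)))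
    have h3 : IsAlgebraic (Algebra.adjoin K0 ({d} : Set (BR W)))
        (algebraMap (BR W) Q ((Ideal.Quotient.mk (Ideal.span W.I) (MvPolynomial.X i) : BR W) ^ (12 * W.n))) := by
      have h4 : algebraMap (BR W) Q ((Ideal.Quotient.mk (Ideal.span W.I) (MvPolynomial.X i) : BR W) ^ (12 * W.n)) =
          u i * algebraMap (BR W) Q d ^ W.v i := by
        rw [hu i, map_pow, div_mul_cancel₀ _ (pow_ne_zero _ hD0)]
      rw [h4]
      exact h1.mul (h2.pow _)
    exact (isAlgebraic_algebraMap_iff hinj).1 h3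
  have hall : Algebra.IsAlgebraic (Algebra.adjoin K0 ({d} : Set (BR W))) (BR W) := by
    refine ⟨fun x => ?_⟩
    obtain ⟨f, rfl⟩ := Ideal.Quotient.mk_surjective x
    induction f using MvPolynomial.induction_on with
    | C c =>
      have h5 : (Ideal.Quotient.mk (Ideal.span W.I) (MvPolynomial.C c) : BR W) =
          algebraMap (Algebra.adjoin K0 ({d} : Set (BR W))) (BR W) (algebraMap K0 _ c) := rfl
      rw [h5]
      exact isAlgebraic_algebraMap _
    | add p q hp hq =>
      rw [map_add]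
      exact hp.add hq
    | mul_X p i hp =>
      rw [map_mul]
      exact hp.mul (hx i)
  have h6 := Algebra.IsAlgebraic.trdeg_le_cardinalMk K0 ({d} : Set (BR W))
  rw [hC.dim, Cardinal.mk_singleton] at h6
  exact absurd h6 (by norm_num)

theorem trd (hW : W.Ok) (hC : Curve W) (hD : W.b ^ 2 - W.a ^ 3 ∉ Ideal.span W.I)
    {Q : Type} [Field Q] [Algebra K0 Q] [Algebra (BR W) Q] [IsScalarTower K0 (BR W) Q]
    (hinj : Function.Injective (algebraMap (BR W) Q)) (u : Fin s → Q)
    (hu : ∀ i, u i = algebraMap (BR W) Q (Ideal.Quotient.mk (Ideal.span W.I) (MvPolynomial.X i)) ^ (12 * W.n) /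
      algebraMap (BR W) Q (Ideal.Quotient.mk (Ideal.span W.I) (W.b ^ 2 - W.a ^ 3)) ^ W.v i) :
    ∃ j, Transcendental K0 (u j) ∧ ∀ i, IsAlgebraic (IntermediateField.adjoin K0 ({u j} : Set Q)) (u i) := by
  obtain ⟨j, hj⟩ := trd_one hW hC hD hinj u hu
  refine ⟨j, hj, fun i => ?_⟩
  by_contra hi
  have hi' : Transcendental (IntermediateField.adjoin K0 ({u j} : Set Q)) (u i) := hi
  have h0 : AlgebraicIndependent K0 (fun _ : Unit => u j) := by
    rw [algebraicIndependent_unique_type_iff]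
    exact hj
  have h1 : Transcendental (Algebra.adjoin K0 (Set.range (fun _ : Unit => u j))) (u i) := by
    refine Transcendental.of_tower_top_of_subalgebra_le
      (B := (IntermediateField.adjoin K0 ({u j} : Set Q)).toSubalgebra) ?_ hi'
    rw [Algebra.adjoin_le_iff]
    rintro _ ⟨_, rfl⟩
    exact IntermediateField.subset_adjoin K0 _ rfl
  have h2 := (h0.option_iff_transcendental (u i)).2 h1
  have h3 : Transcendental (Algebra.adjoin K0 (Set.range (fun o : Option Unit => o.elim (u i) (fun _ : Unit => u j))))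
      (algebraMap (BR W) Q (Ideal.Quotient.mk (Ideal.span W.I) (W.b ^ 2 - W.a ^ 3))) := by
    refine Transcendental.of_tower_top_of_subalgebra_le (Algebra.adjoin_mono ?_) (trd_D hW hC hD hinj u hu)
    rintro _ ⟨_ | _, rfl⟩
    · exact ⟨i, rfl⟩
    · exact ⟨j, rfl⟩
  have h4 := (h2.option_iff_transcendental _).2 h3
  have h5 := trd_two hC hinj _ h4 (by
    have hr : ∀ i, ∃ a b : BR W, u i = algebraMap (BR W) Q a / algebraMap (BR W) Q b := fun i =>
      ⟨(Ideal.Quotient.mk (Ideal.span W.I) (MvPolynomial.X i) : BR W) ^ (12 * W.n),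
        (Ideal.Quotient.mk (Ideal.span W.I) (W.b ^ 2 - W.a ^ 3) : BR W) ^ W.v i, by rw [hu i]; exact congrArg₂ _ (map_pow _ _ _).symm (map_pow _ _ _).symm⟩
    rintro (_ | _ | _)
    · exact ⟨Ideal.Quotient.mk (Ideal.span W.I) (W.b ^ 2 - W.a ^ 3), 1, by rw [map_one, div_one]; rfl⟩
    · exact hr i
    · exact hr j)
  have h6 : Cardinal.mk (Option (Option Unit)) = 3 := by
    rw [Cardinal.mk_option, Cardinal.mk_option]
    norm_num
  rw [h6] at h5
  exact absurd h5 (by norm_num)

end H77.PB
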